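import Mathlib
import Pool.Agent.Helper6.ER.Defs

/-! Definitions and statements of all modules for the theorem of Siegel and Walfisz and the
theorem of Bombieri and Vinogradov (small level) in smoothed form, and for the sieve of primes
by one residue class modulo each small prime. -/

namespace Pool.Agent.Helper6.SW

open Finset DirichletCharacter Pool.Agent.Helper6.ER

/-- logarithmic size `log (N (|t| + 3))` -/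
noncomputable def ell (N : ℕ) (t : ℝ) : ℝ := Real.log (N * (|t| + 3))

/-- the tent function of width `V` -/
noncomputable def tent (V v : ℝ) : ℝ := max 0 (1 - |v| / V)

/-- smooth weight `(log n)^k n^(-1-1/log X) tent (log (n/X))` -/
noncomputable def om (V : ℝ) (k : ℕ) (X : ℝ) (n : ℕ) : ℝ :=
  (Real.log n) ^ k * (n : ℝ) ^ (-(1 + 1 / Real.log X)) * tent V (Real.log n - Real.log X)

/-- upper end of the support of the weight -/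
noncomputable def NX (V X : ℝ) : ℕ := ⌊Real.exp V * X⌋₊

/-- weighted von Mangoldt sum -/
noncomputable def PsiW (V : ℝ) (k : ℕ) (X : ℝ) {f : ℕ} (χ : DirichletCharacter ℂ f) : ℂ :=
  ∑ n ∈ Icc 1 (NX V X),
    ((ArithmeticFunction.vonMangoldt n : ℝ) : ℂ) * χ (n : ZMod f) * ((om V k X n : ℝ) : ℂ)

/-- primes up to the end of the support of the weight -/
noncomputable def PX (V X : ℝ) : Finset ℕ := (Icc 1 (NX V X)).filter Nat.Prime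

/-- weighted sum over primes -/
noncomputable def ThW (V : ℝ) (k : ℕ) (X : ℝ) {f : ℕ} (χ : DirichletCharacter ℂ f) : ℂ :=
  ∑ p ∈ PX V X, ((Real.log p : ℝ) : ℂ) * χ (p : ZMod f) * ((om V k X p : ℝ) : ℂ)

/-- total mass of the weight on primes -/
noncomputable def Mass (V : ℝ) (k : ℕ) (X : ℝ) : ℝ := ∑ p ∈ PX V X, Real.log p * om V k X p

/-- the negative logarithmic derivative of `L(s, χ)` -/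
noncomputable def LD {N : ℕ} [NeZero N] (χ : DirichletCharacter ℂ N) (s : ℂ) : ℂ :=
  - deriv (LFunction χ) s / LFunction χ s

/-! ### The theorem of Siegel and Walfisz -/

/-- SW-1: truncated Dirichlet series in the half plane `Re s > 0` -/
def StPartial : Prop := ∀ (N : ℕ) [NeZero N] (χ : DirichletCharacter ℂ N), χ ≠ 1 →
  ∀ s : ℂ, 0 < s.re → ∀ K : ℕ, 1 ≤ K →
    ‖LFunction χ s - ∑ n ∈ Icc 1 K, χ (n : ZMod N) * (n : ℂ) ^ (-s)‖ ≤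
      2 * N * ‖s‖ * (K : ℝ) ^ (-s.re) / s.re

/-- SW-2a -/
def StUpper : Prop := ∃ C : ℝ, 0 < C ∧ ∀ (N : ℕ) [NeZero N] (χ : DirichletCharacter ℂ N), χ ≠ 1 →
  ∀ s : ℂ, 1 - 1 / ell N s.im ≤ s.re → s.re ≤ 3 → ‖LFunction χ s‖ ≤ C * ell N s.im

/-- SW-2b -/
def StDeriv : Prop := ∃ C : ℝ, 0 < C ∧ ∀ (N : ℕ) [NeZero N] (χ : DirichletCharacter ℂ N), χ ≠ 1 →
  ∀ s : ℂ, 1 - 1 / (3 * ell N s.im) ≤ s.re → s.re ≤ 2 →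
    ‖deriv (LFunction χ) s‖ ≤ C * ell N s.im ^ 2

/-- SW-2c -/
def StCoarse : Prop := ∃ C : ℝ, 0 < C ∧ ∀ (N : ℕ) [NeZero N] (χ : DirichletCharacter ℂ N), χ ≠ 1 →
  ∀ s : ℂ, 1 / 2 ≤ s.re → ‖s‖ ≤ 4 → ‖LFunction χ s‖ ≤ C * N

/-- SW-3a -/
def StTrivA : Prop := ∀ (N : ℕ) [NeZero N] (x t : ℝ), 0 < x → x ≤ 1 →
  ‖LFunction (1 : DirichletCharacter ℂ N) (1 + x + Complex.I * t)‖ ≤ 2 / x

/-- SW-3b -/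
def StTrivB : Prop := ∃ C : ℝ, 0 < C ∧ ∀ (N : ℕ) [NeZero N] (x t : ℝ), 0 < x → x ≤ 1 → t ≠ 0 →
  ‖LFunction (1 : DirichletCharacter ℂ N) (1 + x + Complex.I * t)‖ ≤
    C * ell N t * (ell N t + 1 / |t|)

/-- SW-4: lower bound for `L(s, χ)` on `Re s > 1` in terms of `L(1, χ)` for real `χ` -/
def StLower : Prop := ∃ c : ℝ, 0 < c ∧ ∀ (N : ℕ) [NeZero N] (χ : DirichletCharacter ℂ N), χ ≠ 1 →
  ∀ δ x t : ℝ, 0 < δ → δ ≤ 1 → (χ ^ 2 = 1 → δ ≤ ‖LFunction χ 1‖) → 0 < x → x ≤ 1 →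
    c * δ / ell N t ^ 9 ≤ ‖LFunction χ (1 + x + Complex.I * t)‖

/-- SW-5 -/
def StLogDeriv : Prop := ∃ C : ℝ, 0 < C ∧ ∀ (k N : ℕ) [NeZero N] (χ : DirichletCharacter ℂ N),
  χ ≠ 1 → ∀ δ x t : ℝ, 0 < δ → δ ≤ 1 → (χ ^ 2 = 1 → δ ≤ ‖LFunction χ 1‖) → 0 < x → x ≤ 1 / 2 →
    ‖iteratedDeriv k (LD χ) (1 + x + Complex.I * t)‖ ≤
      k.factorial * (C * ell N t ^ 11 / δ) ^ (k + 1)

/-- `w` is a nonnegative integrable function with Fourier transform the tent function -/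
def IsTentFT (V : ℝ) (w : ℝ → ℝ) : Prop := MeasureTheory.Integrable w ∧ (∀ t, 0 ≤ w t) ∧
  ∀ v : ℝ, ∫ t, ((w t : ℝ) : ℂ) * Complex.exp (Complex.I * (t * v : ℝ)) = ((tent V v : ℝ) : ℂ)

/-- SW-6 -/
def StTent : Prop := ∀ V : ℝ, 0 < V → ∃ (w : ℝ → ℝ) (C : ℝ), IsTentFT V w ∧
  ∀ t, w t ≤ C / (1 + t ^ 2)

/-- SW-7 -/
def StTransform : Prop := ∀ (V : ℝ) (w : ℝ → ℝ), 0 < V → IsTentFT V w →
  ∀ (k N : ℕ) [NeZero N] (χ : DirichletCharacter ℂ N) (X : ℝ), 1 < X →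
    ‖PsiW V k X χ‖ ≤ ∫ t : ℝ, w t *
      ‖iteratedDeriv k (LD χ) (1 + (1 / Real.log X : ℝ) + Complex.I * (-t : ℝ))‖

/-- SW-8a: Estermann's lemma -/
def StEstermann : Prop := ∀ (a : ℕ → ℂ) (G : ℂ → ℂ) (lam B β : ℝ),
  (∀ n, 0 ≤ (a n).re ∧ (a n).im = 0) → 1 ≤ (a 1).re →
  (∀ s : ℂ, 1 < s.re → LSeriesSummable a s) → Differentiable ℂ G →
  (∀ s : ℂ, 1 < s.re → LSeries a s = G s + lam / (s - 1)) → 1 ≤ B →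
  (∀ s : ℂ, ‖s - 2‖ = 3 / 2 → ‖G s‖ ≤ B) → 4 / 5 ≤ β → β < 1 → (G β).re ≤ lam / (1 - β) →
  (1 - β) * B ^ (-(5 * (1 - β))) ≤ 100 * lam

/-- SW-8b: the coefficients of `ζ(s) L(s, ψ₁) L(s, ψ₂) L(s, ψ₁ψ₂)` -/
def StQuad : Prop := ∀ (N : ℕ) [NeZero N] (ψ₁ ψ₂ : DirichletCharacter ℂ N),
  ψ₁ ^ 2 = 1 → ψ₂ ^ 2 = 1 → ∃ a : ℕ → ℂ, (∀ n, 0 ≤ (a n).re ∧ (a n).im = 0) ∧ a 1 = 1 ∧
    ∀ s : ℂ, 1 < s.re → LSeriesSummable a s ∧ LSeries a s =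
      riemannZeta s * (LFunction ψ₁ s * LFunction ψ₂ s * LFunction (ψ₁ * ψ₂) s)

/-- SW-8c: real characters -/
def StReal : Prop := ∀ (N : ℕ) [NeZero N] (χ : DirichletCharacter ℂ N), χ ≠ 1 → χ ^ 2 = 1 →
  ∀ σ : ℝ, 0 < σ → (LFunction χ σ).im = 0 ∧ (1 < σ → 0 < (LFunction χ σ).re)

/-- SW-8d: removing the pole -/
def StBall : Prop := ∃ C : ℝ, 1 ≤ C ∧ ∀ (H : ℂ → ℂ) (M : ℝ), Differentiable ℂ H → 1 ≤ M →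
  (∀ s : ℂ, ‖s - 2‖ ≤ 3 / 2 → ‖H s‖ ≤ M) → ∃ G : ℂ → ℂ, Differentiable ℂ G ∧
    (∀ s : ℂ, s ≠ 1 → riemannZeta s * H s = G s + H 1 / (s - 1)) ∧
    ∀ s : ℂ, ‖s - 2‖ = 3 / 2 → ‖G s‖ ≤ C * M

/-- SW-8: Siegel's theorem -/
def StSiegel : Prop := ∀ ε : ℝ, 0 < ε → ∃ c : ℝ, 0 < c ∧ ∀ (N : ℕ) [NeZero N]
  (χ : DirichletCharacter ℂ N), χ.IsPrimitive → χ ≠ 1 → χ ^ 2 = 1 →
    c * (N : ℝ) ^ (-ε) ≤ ‖LFunction χ 1‖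

/-- SW-9: the theorem of Siegel and Walfisz, smoothed -/
def StSW : Prop := ∀ (V : ℝ) (k : ℕ) (B : ℝ), 0 < V → ∃ X₀ : ℝ, ∀ X ≥ X₀, ∀ (N : ℕ) [NeZero N]
  (χ : DirichletCharacter ℂ N), χ.IsPrimitive → χ ≠ 1 → (N : ℝ) ≤ (Real.log X) ^ B →
    ‖PsiW V k X χ‖ ≤ Real.sqrt (Real.log X)

/-! ### The theorem of Bombieri and Vinogradov -/

/-- BV-1: bilinear forms -/
def StBilin : Prop := ∀ (V X : ℝ) (F A L : ℕ) (I J : Finset ℕ) (α β : ℕ → ℂ), 0 < V → 0 < X →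
  1 ≤ F → F ^ 2 ≤ A → F ^ 2 ≤ L → (∀ a ∈ I, 1 ≤ a ∧ a < A) → (∀ l ∈ J, 1 ≤ l ∧ l < L) →
  ∑ f ∈ Icc 1 F, ((f : ℝ) / f.totient) * ∑ ψ ∈ prim f,
      ‖∑ a ∈ I, ∑ l ∈ J, α a * β l * ψ (a : ZMod f) * ψ (l : ZMod f) *
        ((tent V (Real.log a + Real.log l - Real.log X) : ℝ) : ℂ)‖ ≤
    5 * Real.sqrt (A * ∑ a ∈ I, ‖α a‖ ^ 2) * Real.sqrt (L * ∑ l ∈ J, ‖β l‖ ^ 2)

/-- BV-2: Vaughan's identity -/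
def StVaughan : Prop := ∀ U : ℕ, 1 ≤ U → ∃ v u : ℕ → ℝ, (∀ c, |v c| ≤ Real.log c) ∧
  (∀ l, |u l| ≤ Real.log l) ∧ ∀ (N : ℕ) (h : ℕ → ℂ), (∀ n ≤ U, h n = 0) →
    ∑ n ∈ Icc 1 N, ((ArithmeticFunction.vonMangoldt n : ℝ) : ℂ) * h n =
      ∑ b ∈ Icc 1 U, ((ArithmeticFunction.moebius b : ℤ) : ℂ) *
          ∑ m ∈ Icc 1 (N / b), ((Real.log m : ℝ) : ℂ) * h (b * m) -
        ∑ c ∈ Icc 1 (U ^ 2), ((v c : ℝ) : ℂ) * ∑ m ∈ Icc 1 (N / c), h (c * m) +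
        ∑ a ∈ Ioc U N, ∑ l ∈ Ioc U (N / a),
          ((ArithmeticFunction.moebius a : ℤ) : ℂ) * ((u l : ℝ) : ℂ) * h (a * l)

/-- BV-3: type I sums -/
def StTypeI : Prop := ∀ (V : ℝ) (k : ℕ), 0 < V → ∃ C X₀ : ℝ, 0 < C ∧ ∀ X ≥ X₀, ∀ (N : ℕ) [NeZero N]
  (χ : DirichletCharacter ℂ N), χ ≠ 1 → ∀ b : ℕ, 1 ≤ b → (b : ℝ) ≤ X ^ (1 / 2 : ℝ) →
    ‖∑ m ∈ Icc 1 (NX V X / b), ((Real.log m : ℝ) : ℂ) *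
        (χ ((b * m : ℕ) : ZMod N) * ((om V k X (b * m) : ℝ) : ℂ))‖ ≤
      C * N * (Real.log X) ^ (k + 1) / X ∧
    ‖∑ m ∈ Icc 1 (NX V X / b), χ ((b * m : ℕ) : ZMod N) * ((om V k X (b * m) : ℝ) : ℂ)‖ ≤
      C * N * (Real.log X) ^ k / X

/-- BV-4: type II sums -/
def StTypeII : Prop := ∀ (V : ℝ) (k : ℕ), 0 < V → ∃ C X₀ : ℝ, 0 < C ∧ ∀ X ≥ X₀, ∀ (U F : ℕ)
  (μ u : ℕ → ℝ), 1 ≤ F → F ^ 2 ≤ U → (U : ℝ) ≤ X ^ (1 / 4 : ℝ) → (∀ a, |μ a| ≤ 1) →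
  (∀ l, |u l| ≤ Real.log l) →
    ∑ f ∈ Icc 1 F, ((f : ℝ) / f.totient) * ∑ ψ ∈ prim f,
      ‖∑ a ∈ Ioc U (NX V X), ∑ l ∈ Ioc U (NX V X / a), ((μ a : ℝ) : ℂ) * ((u l : ℝ) : ℂ) *
        (ψ ((a * l : ℕ) : ZMod f) * ((om V k X (a * l) : ℝ) : ℂ))‖ ≤ C * (Real.log X) ^ (k + 4)

/-- BV-5: large conductors -/
def StLarge : Prop := ∀ (V : ℝ) (k : ℕ), 0 < V → ∃ C X₀ : ℝ, 0 < C ∧ ∀ X ≥ X₀, ∀ F : ℕ,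
  (F : ℝ) ≤ X ^ (1 / 32 : ℝ) →
    ∑ f ∈ Icc 2 F, ((f : ℝ) / f.totient) * ∑ ψ ∈ prim f, ‖PsiW V k X ψ‖ ≤
      C * (Real.log X) ^ (k + 4)

/-- error term in an arithmetic progression -/
noncomputable def EW (V : ℝ) (k : ℕ) (X : ℝ) (d b : ℕ) : ℝ :=
  ∑ p ∈ (PX V X).filter (fun p => p ≡ b [MOD d]), Real.log p * om V k X p -
    Mass V k X / d.totient

/-- BV-6: the theorem of Bombieri and Vinogradov, smoothed, small level -/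
def StBV : Prop := ∀ (V : ℝ) (A : ℕ), 0 < V → ∃ (k : ℕ) (X₀ : ℝ), ∀ X ≥ X₀, ∀ (b : ℕ → ℕ)
  (S : Finset ℕ), (∀ d ∈ S, Squarefree d ∧ (d : ℝ) ≤ X ^ (1 / 32 : ℝ) ∧ Nat.Coprime (b d) d) →
    ∑ d ∈ S, |EW V k X d (b d)| ≤ (Real.log X) ^ k / (Real.log X) ^ A

/-! ### The sieve -/

/-- S-1: the mass of the weight -/
def StMass : Prop := ∃ V : ℝ, 0 < V ∧ ∀ k : ℕ, ∃ c C X₀ : ℝ, 0 < c ∧ 0 < C ∧ ∀ X ≥ X₀,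
  c * (Real.log X) ^ k ≤ Mass V k X ∧ ∀ p ∈ PX V X, om V k X p ≠ 0 →
    Real.exp (-V) * X < p ∧ Real.log p * om V k X p ≤ C * (Real.log X) ^ (k + 1) / X

/-- S-2: Brun-Hooley minorant with general densities -/
def StMinorant : Prop := ∃ A : ℕ, 1 ≤ A ∧ ∀ (E : ℕ) (Q : Finset ℕ) (g₀ : ℕ → ℝ),
  (∀ q ∈ Q, q.Prime ∧ Nat.log 2 q ≤ E) →
  (∀ q ∈ Q, 0 ≤ g₀ q ∧ g₀ q ≤ 1 / 2 ∧ g₀ q ≤ 2 / q) → ∃ l : Finset ℕ → ℝ,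
    (∀ s, |l s| ≤ (E : ℝ) + 2) ∧
    (∀ s, s ⊆ Q → l s ≠ 0 → ∏ q ∈ s, q ≤ 2 ^ (A * (E + 1))) ∧
    (∀ g : ℕ → ℝ, (∀ q ∈ Q, 0 ≤ g q) → (∀ q ∈ Q, g q ≤ 1) →
      ∑ s ∈ Q.powerset, l s * ∏ q ∈ s, g q ≤ ∏ q ∈ Q, (1 - g q)) ∧
    (1 / 2) * ∏ q ∈ Q, (1 - g₀ q) ≤ ∑ s ∈ Q.powerset, l s * ∏ q ∈ s, g₀ q

/-- S-3: primes in a window which avoid one nonzero class modulo each small prime -/
def StPSL : Prop := ∃ V c₀ c X₀ : ℝ, 0 < V ∧ 0 < c₀ ∧ 0 < c ∧ ∀ X ≥ X₀, ∀ (y : ℕ)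
  (S : Finset ℕ) (r : ℕ → ℤ), (y : ℝ) ≤ X ^ c₀ →
  (∀ q ∈ S, q.Prime ∧ 3 ≤ q ∧ q ≤ y ∧ ¬ (q : ℤ) ∣ r q) →
    c * (X / Real.log X) * ∏ q ∈ S, (1 - 1 / (q : ℝ)) ≤
      (((PX V X).filter (fun p : ℕ => Real.exp (-V) * X < p ∧
        ∀ q ∈ S, ¬ (q : ℤ) ∣ (p : ℤ) - r q)).card : ℝ)

/-- S-4: reciprocals of integers composed of primes of `S` -/
def StNsum : Prop := ∃ c : ℝ, 0 < c ∧ ∀ (Y : ℕ) (S : Finset ℕ), 2 ≤ Y →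
  (∀ q ∈ S, q.Prime ∧ q ≤ Y) →
    c * ∏ q ∈ S, (1 - 1 / (q : ℝ))⁻¹ ≤
      ∑ m ∈ (Icc 1 Y).filter (fun m => m.primeFactors ⊆ S ∧ (2 ∈ S → 2 ∣ m)), (1 : ℝ) / m

end Pool.Agent.Helper6.SW
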