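import Mathlib
import Pool.Agent.Helper6.SW.Defs

/-! Definitions and statements for the prime number theorem in smoothed form: the mass of the
weight on primes for windows of every width. -/

namespace Pool.Agent.Helper6.SW

open Finset

/-- `-ζ'/ζ - ζ` -/
noncomputable def EZ (s : ℂ) : ℂ := - deriv riemannZeta s / riemannZeta s - riemannZeta s

/-- Z-1: upper bound for `ζ` slightly to the left of `Re s = 1` -/
def StZUp : Prop := ∃ C : ℝ, 0 < C ∧ ∀ s : ℂ, 1 / 2 ≤ |s.im| → 1 - 1 / ell 1 s.im ≤ s.re →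
  s.re ≤ 3 → ‖riemannZeta s‖ ≤ C * ell 1 s.im

/-- Z-2: upper bound for `ζ'` -/
def StZDeriv : Prop := ∃ C : ℝ, 0 < C ∧ ∀ s : ℂ, 1 ≤ |s.im| → 1 - 1 / (3 * ell 1 s.im) ≤ s.re →
  s.re ≤ 2 → ‖deriv riemannZeta s‖ ≤ C * ell 1 s.im ^ 2

/-- Z-3: lower bound for `ζ` -/
def StZLower : Prop := ∃ c : ℝ, 0 < c ∧ ∀ x t : ℝ, 1 ≤ |t| → 0 < x → x ≤ 1 →
  c / ell 1 t ^ 9 ≤ ‖riemannZeta (1 + x + Complex.I * t)‖

/-- Z-4: derivatives of the logarithmic derivative for large `t` -/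
def StZLD : Prop := ∀ k : ℕ, ∃ C : ℝ, 0 < C ∧ ∀ x t : ℝ, 0 < x → x ≤ 1 / 2 → 2 ≤ |t| →
  ‖iteratedDeriv k EZ (1 + x + Complex.I * t)‖ ≤ C * ell 1 t ^ (11 * (k + 1))

/-- Z-5: the same for bounded `t` -/
def StZCompact : Prop := ∀ k : ℕ, ∃ C : ℝ, ∀ x t : ℝ, 0 < x → x ≤ 1 / 2 → |t| ≤ 2 →
  ‖iteratedDeriv k EZ (1 + x + Complex.I * t)‖ ≤ C

/-- Z-6: the transform -/
def StZTransform : Prop := ∀ (V : ℝ) (w : ℝ → ℝ), 0 < V → IsTentFT V w →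
  ∀ (k : ℕ) (X : ℝ), 1 < X →
    |∑ n ∈ Icc 1 (NX V X), (ArithmeticFunction.vonMangoldt n - 1) * om V k X n| ≤
      ∫ t : ℝ, w t *
        ‖iteratedDeriv k EZ (1 + (1 / Real.log X : ℝ) + Complex.I * (-t : ℝ))‖

/-- Z-7: total mass of the weight on the integers -/
def StOmSum : Prop := ∀ (V : ℝ) (k : ℕ), 0 < V → ∃ c X₀ : ℝ, 0 < c ∧ ∀ X ≥ X₀,
  c * (Real.log X) ^ k ≤ ∑ n ∈ Icc 1 (NX V X), om V k X n

/-- Z-8: prime powers -/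
def StPrimePow : Prop := ∀ (V : ℝ) (k : ℕ), 0 < V → ∃ X₀ : ℝ, ∀ X ≥ X₀,
  ∑ n ∈ Icc 1 (NX V X), ArithmeticFunction.vonMangoldt n * om V k X n ≤ Mass V k X + 1

/-- Z-9: the mass of the weight on primes, every width -/
def StMassAll : Prop := ∀ (V : ℝ) (k : ℕ), 0 < V → ∃ c C X₀ : ℝ, 0 < c ∧ 0 < C ∧ ∀ X ≥ X₀,
  c * (Real.log X) ^ k ≤ Mass V k X ∧ ∀ p ∈ PX V X, om V k X p ≠ 0 →
    Real.exp (-V) * X < p ∧ Real.log p * om V k X p ≤ C * (Real.log X) ^ (k + 1) / X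

end Pool.Agent.Helper6.SW
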