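import Mathlib
import Pool.Agent.Helper6.SW.DefsZ
import Pool.Agent.Helper1.SW.SW9
import Pool.Agent.Helper79.SW.Mass

/-! Z-9: the mass of the weight on primes, windows of every width. -/

namespace Pool.Agent.Helper6.SW

open Finset MeasureTheory Pool.Agent.Helper1.SW Pool.Agent.Helper79.SW

theorem term_upper {V : ℝ} (hVpos : 0 < V) (k : ℕ) {X : ℝ} (hX3 : 3 ≤ X) (hXV : Real.exp V ≤ X) :
    ∀ p ∈ PX V X, om V k X p ≠ 0 →
      Real.exp (-V) * X < p ∧ Real.log p * om V k X p ≤
        2 ^ (k + 1) * Real.exp V * (Real.log X) ^ (k + 1) / X := by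
  have hXpos : 0 < X := by linarith
  have hlogX : V ≤ Real.log X := by
    rw [← Real.log_exp V]
    exact Real.log_le_log (Real.exp_pos _) hXV
  have hlogXpos : 0 < Real.log X := lt_of_lt_of_le hVpos hlogX
  intro p hp hne
  rw [PX, Finset.mem_filter, Finset.mem_Icc] at hp
  have hpp := hp.2
  have hp0 : (0 : ℝ) < p := by exact_mod_cast hpp.pos
  have hp1 : (1 : ℝ) ≤ p := by exact_mod_cast hpp.one_lt.le
  have hlogp0 : 0 ≤ Real.log (p : ℝ) := Real.log_nonneg hp1
  have htent : tent V (Real.log p - Real.log X) ≠ 0 := by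
    intro h
    apply hne
    unfold om
    rw [h, mul_zero]
  have habs : |Real.log p - Real.log X| < V := by
    by_contra hcon
    push Not at hcon
    apply htent
    unfold tent
    apply max_eq_left
    have : 1 ≤ |Real.log p - Real.log X| / V := by
      rw [le_div_iff₀ hVpos]; linarith
    linarith
  rw [abs_lt] at habs
  have hgt : Real.exp (-V) * X < p := by
    rw [← Real.log_lt_log_iff (by positivity) hp0, Real.log_mul (Real.exp_pos _).ne' hXpos.ne',
      Real.log_exp]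
    linarith
  refine ⟨hgt, ?_⟩
  have hlogp : Real.log p ≤ 2 * Real.log X := by linarith
  have htent1 : tent V (Real.log p - Real.log X) ≤ 1 := by
    unfold tent
    apply max_le (by norm_num)
    have : 0 ≤ |Real.log p - Real.log X| / V := by positivity
    linarith
  have hrp : (p : ℝ) ^ (-(1 + 1 / Real.log X)) ≤ Real.exp V / X := by
    have h1 : (p : ℝ) ^ (-(1 + 1 / Real.log X)) ≤ (p : ℝ) ^ (-1 : ℝ) := by
      apply Real.rpow_le_rpow_of_exponent_le hp1
      have : 0 ≤ 1 / Real.log X := by positivity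
      linarith
    refine h1.trans ?_
    rw [Real.rpow_neg_one, inv_le_comm₀ hp0 (by positivity), inv_div, div_eq_inv_mul,
      ← Real.exp_neg]
    exact hgt.le
  unfold om
  have hpow : (Real.log p) ^ k ≤ (2 * Real.log X) ^ k := pow_le_pow_left₀ hlogp0 hlogp k
  have hrp0 : 0 ≤ (p : ℝ) ^ (-(1 + 1 / Real.log X)) := Real.rpow_nonneg hp0.le _
  have h3 : (Real.log p) ^ k * (p : ℝ) ^ (-(1 + 1 / Real.log X)) *
      tent V (Real.log p - Real.log X) ≤ (2 * Real.log X) ^ k * (Real.exp V / X) * 1 := by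
    apply mul_le_mul _ htent1 (tent_nonneg _ _) (by positivity)
    exact mul_le_mul hpow hrp hrp0 (by positivity)
  calc Real.log p * ((Real.log p) ^ k * (p : ℝ) ^ (-(1 + 1 / Real.log X)) *
      tent V (Real.log p - Real.log X)) ≤
      (2 * Real.log X) * ((2 * Real.log X) ^ k * (Real.exp V / X) * 1) :=
        mul_le_mul hlogp h3 (mul_nonneg (mul_nonneg (pow_nonneg hlogp0 k) hrp0)
          (tent_nonneg _ _)) (by positivity)
    _ = 2 ^ (k + 1) * Real.exp V * (Real.log X) ^ (k + 1) / X := by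
        rw [mul_pow]; ring


/-- the error integral is bounded -/
theorem error_bound (hLD : StZLD) (hCp : StZCompact) (hTr : StZTransform) (hTe : StTent) (V : ℝ)
    (k : ℕ) (hV : 0 < V) : ∃ D : ℝ, ∀ X : ℝ, Real.exp 2 ≤ X →
      |∑ n ∈ Icc 1 (NX V X), (ArithmeticFunction.vonMangoldt n - 1) * om V k X n| ≤ D := by
  obtain ⟨w, C1, hw, hwb⟩ := hTe V hV
  obtain ⟨C2, hC2, hLD⟩ := hLD k
  obtain ⟨C3, hCp⟩ := hCp k
  have hC10 : 0 ≤ C1 := by
    have h := (hw.2.1 0).trans (hwb 0)
    simpa using h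
  obtain ⟨m, hm⟩ : ∃ m, m = 11 * (k + 1) := ⟨_, rfl⟩
  have hmpos : 0 < m := by omega
  obtain ⟨K, hK⟩ : ∃ K : ℝ, K = C1 * (C2 * ((2 * m : ℝ) ^ m * 3) + |C3|) := ⟨_, rfl⟩
  have hK0 : 0 ≤ K := by rw [hK]; positivity
  refine ⟨K * ∫ t : ℝ, (1 + t ^ 2) ^ (-(3 / 4) : ℝ), ?_⟩
  intro X hX
  have hX0 : 0 < X := lt_of_lt_of_le (Real.exp_pos _) hX
  have hL2 : 2 ≤ Real.log X := (Real.le_log_iff_exp_le hX0).2 hX
  have hX1 : 1 < X := by
    have := Real.add_one_le_exp (2 : ℝ)
    linarith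
  refine (hTr V w hV hw k X hX1).trans ?_
  rw [← integral_const_mul]
  apply integral_mono_of_nonneg
  · exact Filter.Eventually.of_forall fun t => mul_nonneg (hw.2.1 t) (norm_nonneg _)
  · exact integrable_34.const_mul K
  · refine Filter.Eventually.of_forall fun t => ?_
    have hpos : 0 < 1 + t ^ 2 := by positivity
    have hx0 : 0 < 1 / Real.log X := by positivity
    have hx1 : 1 / Real.log X ≤ 1 / 2 := one_div_le_one_div_of_le (by norm_num) hL2
    have h14 : (1 : ℝ) ≤ (1 + t ^ 2) ^ (1 / 4 : ℝ) :=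
      Real.one_le_rpow (by nlinarith [sq_nonneg t]) (by norm_num)
    have hnorm : ‖iteratedDeriv k EZ (1 + (1 / Real.log X : ℝ) + Complex.I * (-t : ℝ))‖ ≤
        (C2 * ((2 * m : ℝ) ^ m * 3) + |C3|) * (1 + t ^ 2) ^ (1 / 4 : ℝ) := by
      have hA : 0 ≤ C2 * ((2 * m : ℝ) ^ m * 3) := by positivity
      rcases le_or_gt 2 |t| with ht | ht
      · have h1 := hLD (1 / Real.log X) (-t) hx0 hx1 (by rwa [abs_neg])
        have h2 := ell_le 1 le_rfl (-t)
        rw [abs_neg, Nat.cast_one, Real.log_one, add_zero, one_mul] at h2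
        have h3 := ell_nonneg 1 le_rfl (-t)
        have h4 := log_pow_le m hmpos t
        rw [← hm] at h1
        calc _ ≤ C2 * ell 1 (-t) ^ m := h1
          _ ≤ C2 * Real.log (|t| + 3) ^ m := by gcongr
          _ ≤ C2 * ((2 * m : ℝ) ^ m * 3 * (1 + t ^ 2) ^ (1 / 4 : ℝ)) := by gcongr
          _ = (C2 * ((2 * m : ℝ) ^ m * 3)) * (1 + t ^ 2) ^ (1 / 4 : ℝ) := by ring
          _ ≤ _ := by
              apply mul_le_mul_of_nonneg_right _ (by positivity)
              linarith [abs_nonneg C3]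
      · have h1 := hCp (1 / Real.log X) (-t) hx0 hx1 (by rw [abs_neg]; exact ht.le)
        calc _ ≤ C3 := h1
          _ ≤ |C3| := le_abs_self _
          _ ≤ (C2 * ((2 * m : ℝ) ^ m * 3) + |C3|) * 1 := by linarith
          _ ≤ _ := mul_le_mul_of_nonneg_left h14 (by positivity)
    calc w t * ‖iteratedDeriv k EZ (1 + (1 / Real.log X : ℝ) + Complex.I * (-t : ℝ))‖
        ≤ (C1 / (1 + t ^ 2)) *
          ((C2 * ((2 * m : ℝ) ^ m * 3) + |C3|) * (1 + t ^ 2) ^ (1 / 4 : ℝ)) :=
          mul_le_mul (hwb t) hnorm (norm_nonneg _) (by positivity)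
      _ = K * ((1 + t ^ 2) ^ (1 / 4 : ℝ) / (1 + t ^ 2)) := by
          rw [hK]; field_simp
      _ = K * (1 + t ^ 2) ^ (-(3 / 4) : ℝ) := by
          congr 1
          nth_rewrite 2 [← Real.rpow_one (1 + t ^ 2)]
          rw [← Real.rpow_sub hpos]
          norm_num

/-- lower bound for positive powers of the logarithm -/
theorem mass_lower (hLD : StZLD) (hCp : StZCompact) (hTr : StZTransform) (hTe : StTent)
    (hOm : StOmSum) (hPP : StPrimePow) (V : ℝ) (k : ℕ) (hV : 0 < V) (hk : 1 ≤ k) :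
    ∃ c X₀ : ℝ, 0 < c ∧ ∀ X ≥ X₀, c * (Real.log X) ^ k ≤ Mass V k X := by
  obtain ⟨D, hD⟩ := error_bound hLD hCp hTr hTe V k hV
  obtain ⟨c, X₁, hc, hOm⟩ := hOm V k hV
  obtain ⟨X₂, hPP⟩ := hPP V k hV
  obtain ⟨S, hS⟩ : ∃ S : ℝ, S = max 2 (2 * (|D| + 1) / c) := ⟨_, rfl⟩
  refine ⟨c / 2, max (max X₁ X₂) (Real.exp S), by positivity, ?_⟩
  intro X hX
  have hX1 : X₁ ≤ X := ((le_max_left _ _).trans (le_max_left _ _)).trans hX
  have hX2 : X₂ ≤ X := ((le_max_right _ _).trans (le_max_left _ _)).trans hX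
  have hX3 : Real.exp S ≤ X := (le_max_right _ _).trans hX
  have hX0 : 0 < X := lt_of_lt_of_le (Real.exp_pos _) hX3
  have hLS : S ≤ Real.log X := (Real.le_log_iff_exp_le hX0).2 hX3
  have hS2 : 2 ≤ S := by rw [hS]; exact le_max_left _ _
  have hSD : 2 * (|D| + 1) / c ≤ S := by rw [hS]; exact le_max_right _ _
  have hL1 : 1 ≤ Real.log X := by linarith
  have h1 := hD X ((Real.exp_le_exp.mpr hS2).trans hX3)
  have h2 := hOm X hX1
  have h3 := hPP X hX2
  have h4 : ∑ n ∈ Icc 1 (NX V X), (ArithmeticFunction.vonMangoldt n - 1) * om V k X n =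
      ∑ n ∈ Icc 1 (NX V X), ArithmeticFunction.vonMangoldt n * om V k X n -
        ∑ n ∈ Icc 1 (NX V X), om V k X n := by
    rw [← Finset.sum_sub_distrib]
    exact Finset.sum_congr rfl fun n _ => by ring
  rw [h4] at h1
  have h5 := (abs_le.mp h1).1
  have h6 : D ≤ |D| := le_abs_self D
  have h7 : Real.log X ≤ (Real.log X) ^ k := le_self_pow₀ hL1 (by omega)
  have h8 : |D| + 1 ≤ c / 2 * (Real.log X) ^ k := by
    have h9 : 2 * (|D| + 1) / c ≤ (Real.log X) ^ k := hSD.trans (hLS.trans h7)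
    rw [div_le_iff₀ hc] at h9
    linarith
  linarith

theorem om_succ (V : ℝ) (k : ℕ) (X : ℝ) (n : ℕ) : om V (k + 1) X n = Real.log n * om V k X n := by
  unfold om
  rw [pow_succ]
  ring

theorem mass_zero {V X : ℝ} (hV : 0 < V) (hX : 1 ≤ X) :
    Mass V 1 X ≤ (V + Real.log X) * Mass V 0 X := by
  unfold Mass
  rw [Finset.mul_sum]
  apply Finset.sum_le_sum
  intro p hp
  rw [PX, Finset.mem_filter, Finset.mem_Icc] at hp
  have hp0 : (0 : ℝ) < p := by exact_mod_cast hp.2.pos
  have hpX : (p : ℝ) ≤ Real.exp V * X := by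
    have h1 : (p : ℝ) ≤ (NX V X : ℝ) := by exact_mod_cast hp.1.2
    exact h1.trans (Nat.floor_le (by positivity))
  have hlp : Real.log p ≤ V + Real.log X := by
    have h2 := Real.log_le_log hp0 hpX
    rwa [Real.log_mul (Real.exp_pos _).ne' (by linarith), Real.log_exp] at h2
  have hl0 : 0 ≤ Real.log (p : ℝ) := Real.log_natCast_nonneg p
  have ho := om_nonneg V 0 X p
  rw [show om V 1 X p = Real.log p * om V 0 X p from om_succ V 0 X p]
  calc Real.log p * (Real.log p * om V 0 X p) = Real.log p * (Real.log p * om V 0 X p) := rfl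
    _ ≤ (V + Real.log X) * (Real.log p * om V 0 X p) :=
        mul_le_mul_of_nonneg_right hlp (mul_nonneg hl0 ho)

/-- Z-9 -/
theorem stMassAll_of (hLD : StZLD) (hCp : StZCompact) (hTr : StZTransform) (hTe : StTent)
    (hOm : StOmSum) (hPP : StPrimePow) : StMassAll := by
  intro V k hV
  have hlow : ∃ c X₀ : ℝ, 0 < c ∧ ∀ X ≥ X₀, c * (Real.log X) ^ k ≤ Mass V k X := by
    rcases Nat.eq_zero_or_pos k with hk | hk
    · subst hk
      obtain ⟨c, X₁, hc, h⟩ := mass_lower hLD hCp hTr hTe hOm hPP V 1 hV le_rfl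
      refine ⟨c / 2, max X₁ (Real.exp (max 1 V)), by positivity, ?_⟩
      intro X hX
      have hX1 : X₁ ≤ X := (le_max_left _ _).trans hX
      have hX2 : Real.exp (max 1 V) ≤ X := (le_max_right _ _).trans hX
      have hX0 : 0 < X := lt_of_lt_of_le (Real.exp_pos _) hX2
      have hL : max 1 V ≤ Real.log X := (Real.le_log_iff_exp_le hX0).2 hX2
      have hL1 : 1 ≤ Real.log X := (le_max_left _ _).trans hL
      have hLV : V ≤ Real.log X := (le_max_right _ _).trans hL
      have hXone : 1 ≤ X := by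
        have := Real.add_one_le_exp (max 1 V)
        have := le_max_left 1 V
        linarith
      have h1 := h X hX1
      have h2 := mass_zero hV hXone
      rw [pow_one] at h1
      rw [pow_zero, mul_one]
      have h3 : 0 ≤ Mass V 0 X := by
        unfold Mass
        exact Finset.sum_nonneg fun p _ => mul_nonneg (Real.log_natCast_nonneg p) (om_nonneg V 0 X p)
      have h4 : (V + Real.log X) * Mass V 0 X ≤ (2 * Real.log X) * Mass V 0 X :=
        mul_le_mul_of_nonneg_right (by linarith) h3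
      have h5 : c * Real.log X ≤ 2 * Real.log X * Mass V 0 X := by linarith
      have h6 : (c / 2) * (2 * Real.log X) ≤ Mass V 0 X * (2 * Real.log X) := by linarith
      exact le_of_mul_le_mul_right h6 (by linarith)
    · exact mass_lower hLD hCp hTr hTe hOm hPP V k hV hk
  obtain ⟨c, X₁, hc, h⟩ := hlow
  refine ⟨c, 2 ^ (k + 1) * Real.exp V, max X₁ (max 3 (Real.exp V)), hc, by positivity, ?_⟩
  intro X hX
  exact ⟨h X ((le_max_left _ _).trans hX), term_upper hV k
    (((le_max_left _ _).trans (le_max_right _ _)).trans hX)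
    (((le_max_right _ _).trans (le_max_right _ _)).trans hX)⟩

end Pool.Agent.Helper6.SW
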