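import Mathlib
import Pool.Agent.Helper6.SW.Defs
import Pool.Agent.Helper34.ER.Bilin

/-! Dirichlet L-functions and their partial sums in the half plane `Re s > 0`. -/

namespace Pool.Agent.Helper6.SW

open Finset DirichletCharacter Filter Topology

/-- partial sums of the Dirichlet series -/
noncomputable def PS {N : ℕ} (χ : DirichletCharacter ℂ N) (K : ℕ) (s : ℂ) : ℂ :=
  ∑ n ∈ Icc 1 K, χ (n : ZMod N) * (n : ℂ) ^ (-s)

lemma norm_cpow_diff {n : ℕ} (hn : 1 ≤ n) {s : ℂ} (hs : 0 < s.re) :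
    ‖(n : ℂ) ^ (-s) - ((n + 1 : ℕ) : ℂ) ^ (-s)‖ ≤
      ‖s‖ / s.re * ((n : ℝ) ^ (-s.re) - ((n + 1 : ℕ) : ℝ) ^ (-s.re)) := by
  have hn0 : (0 : ℝ) < n := by exact_mod_cast hn
  have hpos : ∀ u ∈ Set.Icc (n : ℝ) (n + 1), 0 < u := fun u hu => lt_of_lt_of_le hn0 hu.1
  have hs0 : s ≠ 0 := by
    rintro rfl
    simp at hs
  have hf : ∀ u ∈ Set.Ico (n : ℝ) (n + 1), HasDerivAt (fun u : ℝ => (n : ℂ) ^ (-s) - (u : ℂ) ^ (-s))
      (s * (u : ℂ) ^ (-s - 1)) u := by
    intro u hu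
    have hu0 : 0 < u := hpos u ⟨hu.1, hu.2.le⟩
    have h1 : HasDerivAt (fun u : ℝ => (u : ℂ) ^ (-s)) (-s * (u : ℂ) ^ (-s - 1)) u := by
      have h2 := (hasDerivAt_id (u : ℂ)).cpow_const (c := -s)
        (by rw [Complex.mem_slitPlane_iff]; left; simpa using hu0)
      have h3 := h2.comp_ofReal
      simpa using h3
    have h4 := h1.const_sub ((n : ℂ) ^ (-s))
    rw [show s * (u : ℂ) ^ (-s - 1) = -(-s * (u : ℂ) ^ (-s - 1)) by ring]
    exact h4
  have hB : ∀ u : ℝ, 0 < u → HasDerivAt (fun u : ℝ => ‖s‖ / s.re * ((n : ℝ) ^ (-s.re) - u ^ (-s.re)))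
      (‖s‖ * u ^ (-s.re - 1)) u := by
    intro u hu
    have h1 := (Real.hasDerivAt_rpow_const (x := u) (p := -s.re) (Or.inl hu.ne'))
    have h2 := (h1.const_sub ((n : ℝ) ^ (-s.re))).const_mul (‖s‖ / s.re)
    rw [show ‖s‖ * u ^ (-s.re - 1) = ‖s‖ / s.re * -(-s.re * u ^ (-s.re - 1)) by
      field_simp]
    exact h2
  -- make the boundary function globally differentiable from the right: use the version on the interval
  have key := image_norm_le_of_norm_deriv_right_le_deriv_boundary'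
    (f := fun u : ℝ => (n : ℂ) ^ (-s) - (u : ℂ) ^ (-s))
    (f' := fun u => s * (u : ℂ) ^ (-s - 1)) (a := n) (b := n + 1)
    (B := fun u : ℝ => ‖s‖ / s.re * ((n : ℝ) ^ (-s.re) - u ^ (-s.re)))
    (B' := fun u => ‖s‖ * u ^ (-s.re - 1)) ?_ ?_ ?_ ?_ ?_ ?_ (x := n + 1) ⟨by linarith, le_rfl⟩
  · push_cast at key ⊢
    exact key
  · intro u hu
    apply ContinuousAt.continuousWithinAt
    have hu0 := hpos u hu
    apply ContinuousAt.sub continuousAt_const
    exact (Complex.continuousAt_ofReal_cpow_const _ _ (Or.inr hu0.ne'))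
  · intro u hu
    exact (hf u hu).hasDerivWithinAt
  · simp
  · intro u hu
    apply ContinuousAt.continuousWithinAt
    exact (hB u (hpos u hu)).continuousAt
  · intro u hu
    exact (hB u (hpos u ⟨hu.1, hu.2.le⟩)).hasDerivWithinAt
  · intro u hu
    have hu0 : 0 < u := hpos u ⟨hu.1, hu.2.le⟩
    rw [norm_mul, Complex.norm_cpow_eq_rpow_re_of_pos hu0]
    simp

lemma abel_interval {N : ℕ} (χ : DirichletCharacter ℂ N) (s : ℂ) (K M : ℕ) (hKM : K ≤ M) :
    ∑ n ∈ Ioc K M, χ (n : ZMod N) * (n : ℂ) ^ (-s) =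
      (∑ n ∈ Ioc K M, χ (n : ZMod N)) * (M : ℂ) ^ (-s) +
      ∑ n ∈ Ico K M, (∑ j ∈ Ioc K n, χ (j : ZMod N)) *
        ((n : ℂ) ^ (-s) - ((n + 1 : ℕ) : ℂ) ^ (-s)) := by
  induction M, hKM using Nat.le_induction with
  | base => simp
  | succ M hM ih =>
    rw [Finset.sum_Ico_succ_top hM, ← Finset.insert_Ioc_right_eq_Ioc_add_one hM,
      Finset.sum_insert (by simp), Finset.sum_insert (by simp), ih]
    ring

lemma norm_interval {N : ℕ} (hN : 2 ≤ N) {χ : DirichletCharacter ℂ N} (hχ : χ ≠ 1) {s : ℂ}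
    (hs : 0 < s.re) {K M : ℕ} (hK : 1 ≤ K) (hKM : K ≤ M) :
    ‖∑ n ∈ Ioc K M, χ (n : ZMod N) * (n : ℂ) ^ (-s)‖ ≤ N * ‖s‖ * (K : ℝ) ^ (-s.re) / s.re := by
  have hM0 : (0 : ℝ) < M := by exact_mod_cast (by omega : 0 < M)
  have hsre : s.re ≤ ‖s‖ := Complex.re_le_norm s
  have h1 : 1 ≤ ‖s‖ / s.re := by rw [one_le_div hs]; exact hsre
  rw [abel_interval χ s K M hKM]
  have htel : ∑ n ∈ Ico K M, ((n : ℝ) ^ (-s.re) - ((n + 1 : ℕ) : ℝ) ^ (-s.re)) =
      (K : ℝ) ^ (-s.re) - (M : ℝ) ^ (-s.re) := by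
    have := Finset.sum_Ico_sub (f := fun n : ℕ => -((n : ℝ) ^ (-s.re))) hKM
    calc ∑ n ∈ Ico K M, ((n : ℝ) ^ (-s.re) - ((n + 1 : ℕ) : ℝ) ^ (-s.re))
        = ∑ n ∈ Ico K M, (-(((n + 1 : ℕ) : ℝ) ^ (-s.re)) - -((n : ℝ) ^ (-s.re))) := by
          apply Finset.sum_congr rfl
          intro n _
          ring
      _ = -((M : ℝ) ^ (-s.re)) - -((K : ℝ) ^ (-s.re)) := this
      _ = _ := by ring
  calc ‖(∑ n ∈ Ioc K M, χ (n : ZMod N)) * (M : ℂ) ^ (-s) +
        ∑ n ∈ Ico K M, (∑ j ∈ Ioc K n, χ (j : ZMod N)) *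
          ((n : ℂ) ^ (-s) - ((n + 1 : ℕ) : ℂ) ^ (-s))‖
      ≤ N * (M : ℝ) ^ (-s.re) + ∑ n ∈ Ico K M, (N : ℝ) * (‖s‖ / s.re *
          ((n : ℝ) ^ (-s.re) - ((n + 1 : ℕ) : ℝ) ^ (-s.re))) := by
        refine (norm_add_le _ _).trans (add_le_add ?_ ?_)
        · rw [norm_mul, Complex.norm_natCast_cpow_of_pos (by omega)]
          exact mul_le_mul_of_nonneg_right
            (Pool.Agent.Helper6.ER.interval_char_sum N hN χ hχ K M) (by positivity)
        · refine (norm_sum_le _ _).trans (Finset.sum_le_sum fun n hn => ?_)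
          have hn1 : 1 ≤ n := hK.trans (mem_Ico.mp hn).1
          rw [norm_mul]
          apply mul_le_mul (Pool.Agent.Helper6.ER.interval_char_sum N hN χ hχ K n)
            (norm_cpow_diff hn1 hs) (norm_nonneg _) (Nat.cast_nonneg _)
    _ = N * (M : ℝ) ^ (-s.re) + N * (‖s‖ / s.re) * ((K : ℝ) ^ (-s.re) - (M : ℝ) ^ (-s.re)) := by
        rw [← htel, Finset.mul_sum]
        congr 1
        apply Finset.sum_congr rfl
        intro n _
        ring
    _ ≤ N * (‖s‖ / s.re) * (M : ℝ) ^ (-s.re) +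
          N * (‖s‖ / s.re) * ((K : ℝ) ^ (-s.re) - (M : ℝ) ^ (-s.re)) := by
        have h2 : (0 : ℝ) ≤ N * (M : ℝ) ^ (-s.re) := by positivity
        have h3 : N * (M : ℝ) ^ (-s.re) * 1 ≤ N * (M : ℝ) ^ (-s.re) * (‖s‖ / s.re) :=
          mul_le_mul_of_nonneg_left h1 h2
        linarith
    _ = N * ‖s‖ * (K : ℝ) ^ (-s.re) / s.re := by ring

lemma PS_sub {N : ℕ} (χ : DirichletCharacter ℂ N) (s : ℂ) {K M : ℕ} (hKM : K ≤ M) :
    PS χ M s - PS χ K s = ∑ n ∈ Ioc K M, χ (n : ZMod N) * (n : ℂ) ^ (-s) := by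
  unfold PS
  have h : Icc 1 M = Icc 1 K ∪ Ioc K M := by
    ext n
    simp only [mem_Icc, mem_union, mem_Ioc]
    omega
  have hd : Disjoint (Icc 1 K) (Ioc K M) := by
    rw [Finset.disjoint_left]
    intro n h1 h2
    rw [mem_Icc] at h1
    rw [mem_Ioc] at h2
    omega
  rw [h, Finset.sum_union hd]
  ring

lemma tendsto_rpow_bound (c σ : ℝ) (hσ : 0 < σ) :
    Tendsto (fun K : ℕ => c * (K : ℝ) ^ (-σ)) atTop (𝓝 0) := by
  have h := (tendsto_rpow_neg_atTop hσ).comp tendsto_natCast_atTop_atTop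
  simpa using h.const_mul c

/-- SW-1 -/
theorem stPartial : StPartial := by
  intro N _ χ hχ
  have hN : 2 ≤ N := by
    have h0 : N ≠ 0 := NeZero.ne N
    have h1 : N ≠ 1 := fun h => hχ (level_one' _ h)
    omega
  -- the limit function
  have hcauchy : ∀ s : ℂ, 0 < s.re → CauchySeq (fun M => PS χ M s) := by
    intro s hs
    rw [Metric.cauchySeq_iff']
    intro ε hε
    have h1 := (tendsto_rpow_bound (N * ‖s‖ / s.re) s.re hs).eventually (gt_mem_nhds hε)
    obtain ⟨K, hK⟩ := (h1.and (eventually_ge_atTop 1)).exists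
    refine ⟨K, fun M hM => ?_⟩
    rw [dist_eq_norm, PS_sub χ s hM]
    refine lt_of_le_of_lt (norm_interval hN hχ hs hK.2 hM) ?_
    have := hK.1
    calc (N : ℝ) * ‖s‖ * (K : ℝ) ^ (-s.re) / s.re = N * ‖s‖ / s.re * (K : ℝ) ^ (-s.re) := by ring
      _ < ε := this
  obtain ⟨P, hP⟩ : ∃ P : ℂ → ℂ, ∀ s : ℂ, 0 < s.re → Tendsto (fun M => PS χ M s) atTop (𝓝 (P s)) := by
    refine ⟨fun s => limUnder atTop (fun M => PS χ M s), fun s hs => ?_⟩
    exact (hcauchy s hs).tendsto_limUnder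
  have hbound : ∀ s : ℂ, 0 < s.re → ∀ K : ℕ, 1 ≤ K →
      ‖P s - PS χ K s‖ ≤ N * ‖s‖ * (K : ℝ) ^ (-s.re) / s.re := by
    intro s hs K hK
    have h1 : Tendsto (fun M => ‖PS χ M s - PS χ K s‖) atTop (𝓝 ‖P s - PS χ K s‖) :=
      ((hP s hs).sub_const _).norm
    refine le_of_tendsto h1 ?_
    filter_upwards [eventually_ge_atTop K] with M hM
    rw [PS_sub χ s hM]
    exact norm_interval hN hχ hs hK hM
  have hopen : IsOpen {s : ℂ | 0 < s.re} := isOpen_lt continuous_const Complex.continuous_re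
  have hloc : TendstoLocallyUniformlyOn (fun M => PS χ M) P atTop {s : ℂ | 0 < s.re} := by
    rw [Metric.tendstoLocallyUniformlyOn_iff]
    intro ε hε z hz
    have hz' : 0 < z.re := hz
    refine ⟨{w : ℂ | z.re / 2 < w.re ∧ ‖w‖ < ‖z‖ + 1}, ?_, ?_⟩
    · apply mem_nhdsWithin_of_mem_nhds
      apply IsOpen.mem_nhds
      · exact (isOpen_lt continuous_const Complex.continuous_re).inter
          (isOpen_lt continuous_norm continuous_const)
      · exact ⟨by linarith, by linarith⟩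
    · have h1 := (tendsto_rpow_bound (N * (‖z‖ + 1) / (z.re / 2)) (z.re / 2)
        (by linarith)).eventually (gt_mem_nhds hε)
      filter_upwards [h1, eventually_ge_atTop 1] with K hK1 hK2 w hw
      have hw0 : 0 < w.re := by linarith [hw.1]
      rw [dist_eq_norm]
      refine lt_of_le_of_lt (hbound w hw0 K hK2) (lt_of_le_of_lt ?_ hK1)
      have hKr : (1 : ℝ) ≤ K := by exact_mod_cast hK2
      calc (N : ℝ) * ‖w‖ * (K : ℝ) ^ (-w.re) / w.re
          ≤ N * (‖z‖ + 1) * (K : ℝ) ^ (-(z.re / 2)) / (z.re / 2) := by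
            apply div_le_div₀ (by positivity) _ (by linarith) hw.1.le
            apply mul_le_mul _ _ (by positivity) (by positivity)
            · exact mul_le_mul_of_nonneg_left hw.2.le (Nat.cast_nonneg _)
            · exact Real.rpow_le_rpow_of_exponent_le hKr (by linarith [hw.1])
        _ = N * (‖z‖ + 1) / (z.re / 2) * (K : ℝ) ^ (-(z.re / 2)) := by ring
  have hPd : DifferentiableOn ℂ P {s : ℂ | 0 < s.re} := by
    apply hloc.differentiableOn _ hopen
    apply Eventually.of_forall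
    intro M
    unfold PS
    apply DifferentiableOn.fun_sum
    intro n hn
    have hn0 : (n : ℂ) ≠ 0 := by
      have : n ≠ 0 := by have := (mem_Icc.mp hn).1; omega
      exact_mod_cast this
    have : NeZero (n : ℂ) := ⟨hn0⟩
    fun_prop
  -- agreement on Re s > 1
  have hagree : ∀ s : ℂ, 1 < s.re → P s = LFunction χ s := by
    intro s hs
    have h1 : HasSum (LSeries.term (fun n => χ (n : ZMod N)) s) (LFunction χ s) := by
      rw [LFunction_eq_LSeries χ hs]
      exact (ZMod.LSeriesSummable_of_one_lt_re χ hs).hasSum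
    have h2 := (h1.tendsto_sum_nat).comp (tendsto_add_atTop_nat 1)
    have h3 : ∀ M, ∑ i ∈ range (M + 1), LSeries.term (fun n => χ (n : ZMod N)) s i = PS χ M s := by
      intro M
      rw [Finset.sum_range_succ', LSeries.term_zero, add_zero]
      unfold PS
      rw [Finset.range_eq_Ico,
        Finset.sum_Ico_add' (fun i => LSeries.term (fun n => χ (n : ZMod N)) s i) 0 M 1]
      have : Ico (0 + 1) (M + 1) = Icc 1 M := by
        ext n
        simp only [mem_Ico, mem_Icc]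
        omega
      rw [this]
      apply Finset.sum_congr rfl
      intro n hn
      have hn0 : n ≠ 0 := by have := (mem_Icc.mp hn).1; omega
      rw [LSeries.term_of_ne_zero hn0, Complex.cpow_neg, div_eq_mul_inv]
    have h4 : Tendsto (fun M => PS χ M s) atTop (𝓝 (LFunction χ s)) := by
      refine h2.congr (fun M => ?_)
      exact h3 M
    exact tendsto_nhds_unique (hP s (by linarith)) h4
  have heq : Set.EqOn P (LFunction χ) {s : ℂ | 0 < s.re} := by
    have hconv : IsPreconnected {s : ℂ | 0 < s.re} :=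
      (convex_halfSpace_re_gt 0).isPreconnected
    apply (hPd.analyticOnNhd hopen).eqOn_of_preconnected_of_eventuallyEq
      ((differentiable_LFunction hχ).differentiableOn.analyticOnNhd hopen) hconv
      (z₀ := 2) (by simp)
    have hopen1 : IsOpen {s : ℂ | 1 < s.re} := isOpen_lt continuous_const Complex.continuous_re
    filter_upwards [hopen1.mem_nhds (by simp : (1 : ℝ) < (2 : ℂ).re)] with s hs
    exact hagree s hs
  intro s hs K hK
  have h1 := hbound s hs K hK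
  rw [heq hs] at h1
  refine h1.trans ?_
  have h2 : 0 ≤ N * ‖s‖ * (K : ℝ) ^ (-s.re) / s.re := by positivity
  calc N * ‖s‖ * (K : ℝ) ^ (-s.re) / s.re ≤ 2 * (N * ‖s‖ * (K : ℝ) ^ (-s.re) / s.re) := by linarith
    _ = 2 * N * ‖s‖ * (K : ℝ) ^ (-s.re) / s.re := by ring

end Pool.Agent.Helper6.SW
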