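import Mathlib
import Pool.Agent.Helper6.SW.Defs

/-! Estermann's lemma. -/

namespace Pool.Agent.Helper6.SW

open Finset

open scoped ComplexOrder in
/-- SW-8a -/
theorem stEstermann : StEstermann := by
  intro a G lam B β ha ha1 hsum hG hFG hB1 hGB hβ1 hβ2 hneg
  have ha0 : 0 ≤ a := fun n => by
    rw [Complex.le_def]
    exact ⟨by simpa using (ha n).1, by simpa using (ha n).2.symm⟩
  have habs : LSeries.abscissaOfAbsConv a < ((2 : ℝ) : EReal) := by
    have h1 : LSeriesSummable a ((3 / 2 : ℝ) : ℂ) := hsum _ (by rw [Complex.ofReal_re]; norm_num)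
    refine lt_of_le_of_lt h1.abscissaOfAbsConv_le ?_
    rw [Complex.ofReal_re]
    exact_mod_cast (by norm_num : (3 / 2 : ℝ) < 2)
  -- derivatives at 2
  have hderiv : ∀ m : ℕ, iteratedDeriv m (LSeries a) 2 =
      iteratedDeriv m G 2 + lam * ((-1) ^ m * (m.factorial : ℂ)) := by
    intro m
    have h1 : LSeries a =ᶠ[nhds 2] (G + fun s => (lam : ℂ) * (1 * s - 1)⁻¹) := by
      have hopen : IsOpen {s : ℂ | 1 < s.re} := isOpen_lt continuous_const Complex.continuous_re
      filter_upwards [hopen.mem_nhds (by simp : (1 : ℝ) < (2 : ℂ).re)] with s hs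
      rw [hFG s hs, Pi.add_apply, one_mul, div_eq_mul_inv]
    rw [h1.iteratedDeriv_eq m]
    have hc : ContDiffAt ℂ m (fun s : ℂ => (1 * s - 1)⁻¹) 2 := by
      apply ContDiffAt.inv
      · fun_prop
      · norm_num
    rw [iteratedDeriv_add (hG.contDiff.contDiffAt) (contDiffAt_const.mul hc)]
    congr 1
    rw [iteratedDeriv_const_mul _ hc, iteratedDeriv_eq_iterate, iter_deriv_inv_linear_sub]
    norm_num
  obtain ⟨g, hg⟩ : ∃ g : ℕ → ℂ, g = fun m => (m.factorial : ℂ)⁻¹ * (-1) ^ m *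
    iteratedDeriv m G 2 := ⟨_, rfl⟩
  have hgnorm : ∀ m, ‖g m‖ ≤ B * (2 / 3) ^ m := by
    intro m
    have h1 := Complex.norm_iteratedDeriv_le_of_forall_mem_sphere_norm_le (c := 2) (R := 3 / 2)
      (C := B) m (by norm_num) hG.diffContOnCl (fun z hz => hGB z (by simpa using! hz))
    have hm : (0 : ℝ) < m.factorial := by exact_mod_cast Nat.factorial_pos m
    rw [hg]
    change ‖(m.factorial : ℂ)⁻¹ * (-1) ^ m * iteratedDeriv m G 2‖ ≤ _
    rw [norm_mul, norm_mul, norm_inv, norm_pow, norm_neg, norm_one, one_pow, mul_one,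
      Complex.norm_natCast]
    calc (m.factorial : ℝ)⁻¹ * ‖iteratedDeriv m G 2‖
        ≤ (m.factorial : ℝ)⁻¹ * (m.factorial * B / (3 / 2) ^ m) :=
          mul_le_mul_of_nonneg_left h1 (by positivity)
      _ = B * (2 / 3) ^ m := by
          rw [show (2 / 3 : ℝ) = (3 / 2)⁻¹ by norm_num, inv_pow]
          field_simp
  -- nonnegativity
  have hre : ∀ m, - lam ≤ (g m).re := by
    intro m
    have h1 := LSeries.iteratedDeriv_alternating ha0 habs m
    have hm : (0 : ℝ) < m.factorial := by exact_mod_cast Nat.factorial_pos m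
    have h2 : g m = (m.factorial : ℂ)⁻¹ * ((-1) ^ m * iteratedDeriv m (LSeries a) (2 : ℝ)) -
        lam := by
      have hm' : (m.factorial : ℂ) ≠ 0 := by exact_mod_cast hm.ne'
      have h3 : ((-1 : ℂ) ^ m) * (-1) ^ m = 1 := by
        rw [← mul_pow]
        norm_num
      rw [hg, Complex.ofReal_ofNat, hderiv m]
      change (m.factorial : ℂ)⁻¹ * (-1) ^ m * iteratedDeriv m G 2 = _
      have h4 : (m.factorial : ℂ)⁻¹ * ((-1) ^ m * (iteratedDeriv m G 2 + lam * ((-1) ^ m *
          (m.factorial : ℂ)))) = (m.factorial : ℂ)⁻¹ * (-1) ^ m * iteratedDeriv m G 2 +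
          lam * (((-1 : ℂ) ^ m) * (-1) ^ m) * ((m.factorial : ℂ)⁻¹ * (m.factorial : ℂ)) := by ring
      rw [h4, h3, inv_mul_cancel₀ hm']
      ring
    rw [Complex.le_def] at h1
    have h5 : ((m.factorial : ℂ)⁻¹ * ((-1) ^ m * iteratedDeriv m (LSeries a) (2 : ℝ))).re =
        (m.factorial : ℝ)⁻¹ * ((-1) ^ m * iteratedDeriv m (LSeries a) (2 : ℝ)).re := by
      rw [show (m.factorial : ℂ)⁻¹ = (((m.factorial : ℝ)⁻¹ : ℝ) : ℂ) by push_cast; rfl,
        Complex.re_ofReal_mul]
    rw [h2, Complex.sub_re, Complex.ofReal_re, h5]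
    have h6 : 0 ≤ ((-1) ^ m * iteratedDeriv m (LSeries a) (2 : ℝ)).re := by simpa using h1.1
    have : 0 ≤ (m.factorial : ℝ)⁻¹ * ((-1) ^ m * iteratedDeriv m (LSeries a) (2 : ℝ)).re := by
      positivity
    linarith
  have hre0 : 1 - lam ≤ (g 0).re := by
    have h1 : g 0 = LSeries a 2 - lam := by
      have := hderiv 0
      simp only [iteratedDeriv_zero, pow_zero, Nat.factorial_zero, Nat.cast_one, mul_one] at this
      rw [hg, this]
      simp
    have h2 : LSeriesSummable a 2 := hsum 2 (by simp)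
    have h3 : 1 ≤ (LSeries a 2).re := by
      rw [LSeries, Complex.re_tsum h2]
      have h4 : (LSeries.term a 2 1).re = (a 1).re := by
        rw [LSeries.term_of_ne_zero one_ne_zero]
        simp
      rw [← h4] at ha1
      refine ha1.trans ?_
      apply Summable.le_tsum (Complex.hasSum_re h2.hasSum).summable 1
      intro n _
      rcases eq_or_ne n 0 with rfl | hn
      · simp
      · have h5 := LSeries.term_nonneg (ha0 n) 2
        rw [Complex.le_def] at h5
        simpa using h5.1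
    rw [h1, Complex.sub_re, Complex.ofReal_re]
    linarith
  -- Taylor series at 2
  obtain ⟨u, hu⟩ : ∃ u, u = 1 - β := ⟨_, rfl⟩
  have hu0 : 0 < u := by linarith
  have hu5 : u ≤ 1 / 5 := by linarith
  have hHas : HasSum (fun m : ℕ => g m * ((1 + u : ℝ) : ℂ) ^ m) (G β) := by
    have h1 := Complex.hasSum_taylorSeries_of_entire hG 2 (β : ℂ)
    have h2 : (fun m : ℕ => (m.factorial : ℂ)⁻¹ • ((β : ℂ) - 2) ^ m • iteratedDeriv m G 2) =
        fun m : ℕ => g m * ((1 + u : ℝ) : ℂ) ^ m := by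
      funext m
      rw [hg]
      change (m.factorial : ℂ)⁻¹ * (((β : ℂ) - 2) ^ m * iteratedDeriv m G 2) =
        (m.factorial : ℂ)⁻¹ * (-1) ^ m * iteratedDeriv m G 2 * ((1 + u : ℝ) : ℂ) ^ m
      have h3 : ((β : ℂ) - 2) = (-1) * ((1 + u : ℝ) : ℂ) := by
        rw [hu]
        push_cast
        ring
      rw [h3, mul_pow]
      ring
    rw [← h2]
    exact h1
  have hHasR : HasSum (fun m : ℕ => (g m).re * (1 + u) ^ m) (G β).re := by
    have h1 := Complex.hasSum_re hHas
    have h2 : (fun m : ℕ => (g m * ((1 + u : ℝ) : ℂ) ^ m).re) =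
        fun m : ℕ => (g m).re * (1 + u) ^ m := by
      funext m
      rw [← Complex.ofReal_pow, Complex.re_mul_ofReal]
    rw [h2] at h1
    exact h1
  have hq : ∀ m : ℕ, -(B * (4 / 5) ^ m) ≤ (g m).re * (1 + u) ^ m := by
    intro m
    have h1 : |(g m).re| ≤ B * (2 / 3) ^ m := (Complex.abs_re_le_norm _).trans (hgnorm m)
    have h2 : (1 + u) ^ m ≤ (6 / 5) ^ m := pow_le_pow_left₀ (by linarith) (by linarith) m
    have h3 : |(g m).re * (1 + u) ^ m| ≤ B * (4 / 5) ^ m := by
      rw [abs_mul, abs_of_pos (by positivity : (0 : ℝ) < (1 + u) ^ m)]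
      calc |(g m).re| * (1 + u) ^ m ≤ (B * (2 / 3) ^ m) * (6 / 5) ^ m :=
            mul_le_mul h1 h2 (by positivity) (by positivity)
        _ = B * (4 / 5) ^ m := by
            rw [mul_assoc, ← mul_pow]
            norm_num
    exact (abs_le.mp h3).1
  obtain ⟨M, hM⟩ : ∃ M, M = ⌈5 * Real.log (10 * B)⌉₊ := ⟨_, rfl⟩
  have hlogB : 0 < Real.log (10 * B) := Real.log_pos (by linarith)
  have hM1 : 1 ≤ M := by
    rw [hM]
    exact Nat.ceil_pos.mpr (by positivity)
  have hMle : (M : ℝ) ≤ 5 * Real.log (10 * B) + 1 := by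
    rw [hM]
    exact (Nat.ceil_lt_add_one (by positivity)).le
  have hMge : 5 * Real.log (10 * B) ≤ M := by
    rw [hM]
    exact Nat.le_ceil _
  -- the tail
  have hpow : 5 * B * (4 / 5) ^ M ≤ 1 / 2 := by
    have h1 : 10 * B ≤ (5 / 4) ^ M := by
      rw [← Real.log_le_log_iff (by linarith) (by positivity), Real.log_pow]
      have h2 : (1 : ℝ) / 5 ≤ Real.log (5 / 4) := by
        have := Real.one_sub_inv_le_log_of_pos (by norm_num : (0 : ℝ) < 5 / 4)
        norm_num at this ⊢
        linarith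
      have h3 : (0 : ℝ) ≤ M := Nat.cast_nonneg M
      nlinarith
    have h2 : (4 / 5 : ℝ) ^ M = ((5 / 4 : ℝ) ^ M)⁻¹ := by
      rw [← inv_pow]
      norm_num
    rw [h2]
    have h3 : (0 : ℝ) < (5 / 4) ^ M := by positivity
    rw [← div_eq_mul_inv, div_le_iff₀ h3]
    linarith
  have hsplit := hHasR.summable.sum_add_tsum_nat_add M
  rw [hHasR.tsum_eq] at hsplit
  have htail : -(5 * B * (4 / 5) ^ M) ≤ ∑' i : ℕ, (g (i + M)).re * (1 + u) ^ (i + M) := by
    have h1 : HasSum (fun i : ℕ => -(B * (4 / 5 : ℝ) ^ M * (4 / 5) ^ i))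
        (-(B * (4 / 5 : ℝ) ^ M * (1 - 4 / 5)⁻¹)) := by
      exact ((hasSum_geometric_of_lt_one (by norm_num) (by norm_num)).mul_left _).neg
    have h2 : -(B * (4 / 5 : ℝ) ^ M * (1 - 4 / 5)⁻¹) = -(5 * B * (4 / 5) ^ M) := by
      norm_num
      ring
    rw [h2] at h1
    rw [← h1.tsum_eq]
    apply Summable.tsum_le_tsum _ h1.summable
      ((summable_nat_add_iff M).mpr hHasR.summable)
    intro i
    have h3 := hq (i + M)
    rw [pow_add (4 / 5 : ℝ)] at h3
    calc -(B * (4 / 5 : ℝ) ^ M * (4 / 5) ^ i) = -(B * ((4 / 5) ^ i * (4 / 5) ^ M)) := by ring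
      _ ≤ _ := h3
  -- the head
  have hhead : 1 - lam * (((1 + u) ^ M - 1) / u) ≤ ∑ i ∈ range M, (g i).re * (1 + u) ^ i := by
    have h1 : ∑ i ∈ range M, (-lam * (1 + u) ^ i + if i = 0 then 1 else 0) ≤
        ∑ i ∈ range M, (g i).re * (1 + u) ^ i := by
      apply Finset.sum_le_sum
      intro i _
      have hp : (0 : ℝ) < (1 + u) ^ i := by positivity
      split_ifs with h
      · rw [h, pow_zero]
        linarith
      · rw [add_zero]
        exact mul_le_mul_of_nonneg_right (hre i) hp.le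
    refine le_trans (le_of_eq ?_) h1
    rw [Finset.sum_add_distrib, ← Finset.mul_sum, geom_sum_eq (by linarith), Finset.sum_ite_eq',
      if_pos (Finset.mem_range.mpr (by omega))]
    have : 1 + u - 1 = u := by ring
    rw [this]
    ring
  have hkey : 1 / 2 ≤ lam * (1 + u) ^ M / u := by
    have h1 : (G β).re ≤ lam / u := by rw [hu]; exact hneg
    have h2 : lam * (((1 + u) ^ M - 1) / u) + lam / u = lam * (1 + u) ^ M / u := by
      field_simp
      ring
    linarith
  -- size of (1+u)^M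
  have hbig : (1 + u) ^ M ≤ 50 * B ^ (5 * u) := by
    have h1 : (1 + u) ^ M ≤ Real.exp (u * M) := by
      rw [mul_comm, Real.exp_nat_mul]
      apply pow_le_pow_left₀ (by linarith)
      have := Real.add_one_le_exp u
      linarith
    have h2 : u * M ≤ 5 * u * Real.log B + (Real.log 10 + 1 / 5) := by
      have h3 : u * M ≤ u * (5 * Real.log (10 * B) + 1) :=
        mul_le_mul_of_nonneg_left hMle hu0.le
      rw [Real.log_mul (by norm_num) (by linarith)] at h3
      have h4 : 0 < Real.log 10 := Real.log_pos (by norm_num)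
      nlinarith
    calc (1 + u) ^ M ≤ Real.exp (u * M) := h1
      _ ≤ Real.exp (5 * u * Real.log B + (Real.log 10 + 1 / 5)) := Real.exp_le_exp.mpr h2
      _ = B ^ (5 * u) * (10 * Real.exp (1 / 5)) := by
          rw [Real.exp_add, Real.exp_add, Real.exp_log (by norm_num), mul_comm (5 * u),
            ← Real.rpow_def_of_pos (by linarith)]
      _ ≤ B ^ (5 * u) * 50 := by
          apply mul_le_mul_of_nonneg_left _ (by positivity)
          have h5 : Real.exp (1 / 5) ≤ Real.exp 1 := Real.exp_le_exp.mpr (by norm_num)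
          have := Real.exp_one_lt_d9
          linarith
      _ = 50 * B ^ (5 * u) := mul_comm _ _
  have hlam : 0 < lam := by
    by_contra h
    push Not at h
    have h1 : lam * (1 + u) ^ M / u ≤ 0 := by
      apply div_nonpos_of_nonpos_of_nonneg _ hu0.le
      exact mul_nonpos_of_nonpos_of_nonneg h (by positivity)
    linarith
  have h1 : u / 2 ≤ lam * (50 * B ^ (5 * u)) := by
    rw [le_div_iff₀ hu0] at hkey
    calc u / 2 = 1 / 2 * u := by ring
      _ ≤ lam * (1 + u) ^ M := hkey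
      _ ≤ _ := mul_le_mul_of_nonneg_left hbig hlam.le
  rw [← hu, Real.rpow_neg (by linarith)]
  have h2 : 0 < B ^ (5 * u) := by positivity
  rw [← div_eq_mul_inv, div_le_iff₀ h2]
  linarith

end Pool.Agent.Helper6.SW
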