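import Mathlib
import Pool.Agent.Helper6.SW.Defs

/-! Real characters, and removal of the pole of the zeta function. -/

namespace Pool.Agent.Helper6.SW

open Finset DirichletCharacter Filter Topology

lemma real_value {N : ℕ} {χ : DirichletCharacter ℂ N} (hχ : χ ^ 2 = 1) (a : ZMod N) :
    (χ a).im = 0 := by
  rcases MulChar.isQuadratic_iff_sq_eq_one.mpr hχ a with h | h | h <;> simp [h]

/-- SW-8c -/
theorem stReal_of (hP : StPartial) : StReal := by
  intro N _ χ hχ hχ2 σ hσ
  have him : ∀ σ : ℝ, 0 < σ → (LFunction χ σ).im = 0 := by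
    intro σ hσ
    have hps : ∀ K : ℕ, (∑ n ∈ Icc 1 K, χ (n : ZMod N) * (n : ℂ) ^ (-(σ : ℂ))).im = 0 := by
      intro K
      rw [Complex.im_sum]
      apply Finset.sum_eq_zero
      intro n _
      have h1 : (n : ℂ) ^ (-(σ : ℂ)) = (((n : ℝ) ^ (-σ) : ℝ) : ℂ) := by
        rw [Complex.ofReal_cpow (Nat.cast_nonneg n)]
        push_cast
        rfl
      rw [h1, Complex.im_mul_ofReal, real_value hχ2, zero_mul]
    have hb : ∀ K : ℕ, 1 ≤ K → |(LFunction χ σ).im| ≤ 2 * N * |σ| / σ * (K : ℝ) ^ (-σ) := by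
      intro K hK
      have h1 := hP N χ hχ σ (by simpa using hσ) K hK
      rw [Complex.ofReal_re, Complex.norm_real, Real.norm_eq_abs] at h1
      calc |(LFunction χ σ).im| = |(LFunction χ σ -
            ∑ n ∈ Icc 1 K, χ (n : ZMod N) * (n : ℂ) ^ (-(σ : ℂ))).im| := by
            rw [Complex.sub_im, hps K, sub_zero]
        _ ≤ ‖LFunction χ σ - ∑ n ∈ Icc 1 K, χ (n : ZMod N) * (n : ℂ) ^ (-(σ : ℂ))‖ :=
            Complex.abs_im_le_norm _
        _ ≤ _ := h1
        _ = _ := by ring
    have hlim : Tendsto (fun K : ℕ => 2 * N * |σ| / σ * (K : ℝ) ^ (-σ)) atTop (𝓝 0) := by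
      have h := (tendsto_rpow_neg_atTop hσ).comp tendsto_natCast_atTop_atTop
      simpa using h.const_mul (2 * N * |σ| / σ)
    have h2 : |(LFunction χ σ).im| ≤ 0 := by
      refine ge_of_tendsto hlim ?_
      filter_upwards [eventually_ge_atTop 1] with K hK using hb K hK
    exact abs_nonpos_iff.mp h2
  refine ⟨him σ hσ, fun hσ1 => ?_⟩
  -- positivity
  have hne : ∀ τ : ℝ, 1 < τ → (LFunction χ τ).re ≠ 0 := by
    intro τ hτ h0
    have hz : LFunction χ τ = 0 :=
      Complex.ext (by simpa using h0) (by simpa using him τ (by linarith))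
    exact LFunction_ne_zero_of_one_le_re χ (Or.inl hχ) (by simpa using hτ.le) hz
  have hlim : Tendsto (fun x : ℝ => LSeries (fun n => χ (n : ZMod N)) x) atTop (𝓝 1) := by
    have h1 : LSeries.abscissaOfAbsConv (fun n => χ (n : ZMod N)) < ⊤ := by
      refine lt_of_le_of_lt (ZMod.LSeriesSummable_of_one_lt_re χ
        (s := 2) (by simp)).abscissaOfAbsConv_le ?_
      exact EReal.coe_lt_top _
    have h2 := LSeries.tendsto_atTop h1
    simpa using h2
  have hev : ∀ᶠ x : ℝ in atTop, 0 < (LFunction χ x).re := by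
    have h1 : Tendsto (fun x : ℝ => (LSeries (fun n => χ (n : ZMod N)) x).re) atTop (𝓝 1) := by
      have := (Complex.continuous_re.tendsto 1).comp hlim
      rw [Complex.one_re] at this
      exact this
    filter_upwards [h1.eventually (lt_mem_nhds one_pos), eventually_gt_atTop 1] with x hx hx1
    rw [LFunction_eq_LSeries χ (by simpa using hx1)]
    exact hx
  obtain ⟨τ, hτ1, hτ2⟩ := (hev.and (eventually_ge_atTop σ)).exists
  have hcont : Continuous (fun σ : ℝ => (LFunction χ σ).re) :=
    Complex.continuous_re.comp ((differentiable_LFunction hχ).continuous.comp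
      Complex.continuous_ofReal)
  by_contra hcon
  push Not at hcon
  obtain ⟨ρ, hρ, h0⟩ := intermediate_value_Icc (f := fun σ : ℝ => (LFunction χ σ).re) hτ2
    hcont.continuousOn ⟨hcon, hτ1.le⟩
  exact hne ρ (lt_of_lt_of_le hσ1 hρ.1) h0

/-- SW-8d -/
theorem stBall : StBall := by
  obtain ⟨C, hC⟩ := (isCompact_closedBall (2 : ℂ) (3 / 2)).exists_bound_of_continuousOn
    differentiable_riemannZeta₀.continuous.continuousOn
  have hC0 : 0 ≤ C := (norm_nonneg _).trans (hC 2 (Metric.mem_closedBall_self (by norm_num)))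
  refine ⟨C + 4, by linarith, ?_⟩
  intro H M hH hM hHM
  refine ⟨fun s => riemannZeta₀ s * H s + dslope H 1 s, ?_, ?_, ?_⟩
  · apply (differentiable_riemannZeta₀.mul hH).add
    have h1 : DifferentiableOn ℂ H Set.univ := hH.differentiableOn
    have h2 := (Complex.differentiableOn_dslope (c := 1) (s := Set.univ) Filter.univ_mem).mpr h1
    exact differentiableOn_univ.mp h2
  · intro s hs
    change riemannZeta s * H s = riemannZeta₀ s * H s + dslope H 1 s + H 1 / (s - 1)
    rw [dslope_of_ne _ hs, slope_def_field, riemannZeta_eq_inv_sub_add hs]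
    have : s - 1 ≠ 0 := sub_ne_zero.mpr hs
    field_simp
    ring
  · intro s hs
    have hs1 : 1 / 2 ≤ ‖s - 1‖ := by
      have h1 : ‖s - 2‖ ≤ ‖s - 1‖ + ‖(1 : ℂ)‖ := by
        calc ‖s - 2‖ = ‖(s - 1) - 1‖ := by ring_nf
          _ ≤ _ := norm_sub_le _ _
      rw [hs, norm_one] at h1
      linarith
    have hne : s ≠ 1 := by
      rintro rfl
      simp at hs1
      norm_num at hs1
    have hH1 : ‖H 1‖ ≤ M := hHM 1 (by norm_num)
    have hHs : ‖H s‖ ≤ M := hHM s hs.le
    have hCs : ‖riemannZeta₀ s‖ ≤ C := hC s (by simpa [dist_eq_norm] using! hs.le)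
    change ‖riemannZeta₀ s * H s + dslope H 1 s‖ ≤ _
    rw [dslope_of_ne _ hne, slope_def_field]
    calc ‖riemannZeta₀ s * H s + (H s - H 1) / (s - 1)‖
        ≤ ‖riemannZeta₀ s‖ * ‖H s‖ + ‖H s - H 1‖ / ‖s - 1‖ := by
          refine (norm_add_le _ _).trans ?_
          rw [norm_mul, norm_div]
      _ ≤ C * M + (M + M) / (1 / 2) := by
          apply add_le_add
          · exact mul_le_mul hCs hHs (norm_nonneg _) hC0
          · apply div_le_div₀ (by linarith) _ (by norm_num) hs1
            exact (norm_sub_le _ _).trans (add_le_add hHs hH1)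
      _ = (C + 4) * M := by ring

end Pool.Agent.Helper6.SW
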