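import Mathlib
import Pool.Agent.Helper6.SW.Defs

/-! Siegel's theorem: preparations and the case without exceptional zero. -/

namespace Pool.Agent.Helper6.SW

open Finset DirichletCharacter

open scoped ComplexOrder in
/-- coefficients of `ζ(s) L(s, χ)` -/
lemma double_coeff (N : ℕ) [NeZero N] (χ : DirichletCharacter ℂ N) (hχ : χ ^ 2 = 1) :
    ∃ a : ℕ → ℂ, (∀ n, 0 ≤ (a n).re ∧ (a n).im = 0) ∧ a 1 = 1 ∧
      ∀ s : ℂ, 1 < s.re → LSeriesSummable a s ∧
        LSeries a s = riemannZeta s * LFunction χ s := by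
  refine ⟨⇑(zetaMul χ), ?_, ?_, ?_⟩
  · intro n
    have h := zetaMul_nonneg hχ n
    rw [Complex.le_def] at h
    exact ⟨by simpa using h.1, by simpa using h.2.symm⟩
  · exact (isMultiplicative_zetaMul χ).map_one
  · intro s hs
    refine ⟨LSeriesSummable_zetaMul χ hs, ?_⟩
    rw [zetaMul, ← ArithmeticFunction.coe_mul, LSeries_convolution']
    · rw [χ.LFunction_eq_LSeries hs]
      congr 1
      · simp_rw [← ArithmeticFunction.LSeries_zeta_eq_riemannZeta hs, ← ArithmeticFunction.natCoe_apply]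
      · exact (LSeries_congr χ.apply_eq_toArithmeticFunction_apply s).symm
    · exact ArithmeticFunction.LSeriesSummable_zeta_iff.mpr hs
    · exact (LSeriesSummable_congr _ fun h ↦ (χ.apply_eq_toArithmeticFunction_apply h).symm).mpr <|
        ZMod.LSeriesSummable_of_one_lt_re χ hs

lemma norm_le_four {s : ℂ} (hs : ‖s - 2‖ ≤ 3 / 2) : 1 / 2 ≤ s.re ∧ ‖s‖ ≤ 4 := by
  constructor
  · have h := Complex.abs_re_le_norm (s - 2)
    have h2 : (s - 2).re = s.re - 2 := by simp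
    rw [h2] at h
    have := abs_le.mp (h.trans hs)
    linarith [this.1]
  · calc ‖s‖ = ‖(s - 2) + 2‖ := by rw [sub_add_cancel]
      _ ≤ ‖s - 2‖ + ‖(2 : ℂ)‖ := norm_add_le _ _
      _ ≤ 3 / 2 + 2 := add_le_add hs (by simp)
      _ ≤ 4 := by norm_num

/-- a real L-function without zeros on `[β, 1)` is positive at `β` -/
lemma pos_of_nonvanishing (hR : StReal) {N : ℕ} [NeZero N] {χ : DirichletCharacter ℂ N}
    (hχ : χ ≠ 1) (hχ2 : χ ^ 2 = 1) {β : ℝ} (hβ : 0 < β) (hβ2 : β ≤ 2)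
    (hne : ∀ σ : ℝ, β ≤ σ → σ < 1 → LFunction χ σ ≠ 0) : 0 < (LFunction χ β).re := by
  have hcont : Continuous (fun σ : ℝ => (LFunction χ σ).re) :=
    Complex.continuous_re.comp ((differentiable_LFunction hχ).continuous.comp
      Complex.continuous_ofReal)
  have hne' : ∀ σ : ℝ, β ≤ σ → (LFunction χ σ).re ≠ 0 := by
    intro σ hσ h0
    have him := (hR N χ hχ hχ2 σ (by linarith)).1
    have hz : LFunction χ σ = 0 := Complex.ext (by simpa using h0) (by simpa using him)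
    rcases lt_or_ge σ 1 with h | h
    · exact hne σ hσ h hz
    · exact LFunction_ne_zero_of_one_le_re χ (Or.inl hχ) (by simpa using h) hz
  have h2 : 0 < (LFunction χ (2 : ℝ)).re := (hR N χ hχ hχ2 2 (by norm_num)).2 (by norm_num)
  by_contra hcon
  push Not at hcon
  have hlt : (LFunction χ β).re < 0 := lt_of_le_of_ne hcon (hne' β le_rfl)
  have hIVT := intermediate_value_Icc (f := fun σ : ℝ => (LFunction χ σ).re) hβ2 hcont.continuousOn
  obtain ⟨σ, hσ, h0⟩ := hIVT ⟨hlt.le, h2.le⟩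
  exact hne' σ hσ.1 h0

/-- sign of zeta to the left of one -/
lemma exists_zeta_neg : ∃ e₀ : ℝ, 0 < e₀ ∧ e₀ ≤ 1 / 5 ∧ ∀ σ : ℝ, 1 - e₀ ≤ σ → σ < 1 →
    (riemannZeta σ).re ≤ 0 := by
  obtain ⟨C, hC⟩ := (isCompact_Icc : IsCompact (Set.Icc (0 : ℝ) 1)).exists_bound_of_continuousOn
    (f := fun σ : ℝ => riemannZeta₀ (σ : ℂ))
    ((differentiable_riemannZeta₀.continuous.comp Complex.continuous_ofReal).continuousOn)
  have hC0 : 0 ≤ C := (norm_nonneg _).trans (hC 0 ⟨le_rfl, by norm_num⟩)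
  refine ⟨min (1 / 5) (1 / (C + 1)), lt_min (by norm_num) (by positivity), min_le_left _ _, ?_⟩
  intro σ h1 h2
  have h3 : 1 - σ ≤ 1 / (C + 1) := by
    have := min_le_right (1 / 5 : ℝ) (1 / (C + 1))
    linarith
  have h4 : 1 - σ ≤ 1 / 5 := by
    have := min_le_left (1 / 5 : ℝ) (1 / (C + 1))
    linarith
  have h5 : 0 < 1 - σ := by linarith
  have hne : (σ : ℂ) ≠ 1 := by
    intro h
    have : σ = 1 := by exact_mod_cast h
    linarith
  rw [riemannZeta_eq_inv_sub_add hne]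
  have h6 : ((σ : ℂ) - 1)⁻¹ = (((σ - 1)⁻¹ : ℝ) : ℂ) := by push_cast; ring
  rw [h6, Complex.add_re, Complex.ofReal_re]
  have h7 : (riemannZeta₀ (σ : ℂ)).re ≤ C := (Complex.re_le_norm _).trans (hC σ ⟨by linarith, h2.le⟩)
  have h8 : (σ - 1)⁻¹ = - (1 - σ)⁻¹ := by
    rw [← inv_neg]
    congr 1
    ring
  have h9 : C + 1 ≤ (1 - σ)⁻¹ := by
    rw [le_inv_comm₀ (by positivity) h5, ← one_div]
    exact h3
  rw [h8]
  linarith

/-- lower bound in the absence of zeros on `[1-e, 1)` -/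
lemma siegel_A (hE : StEstermann) (hR : StReal) {Cb Cc e : ℝ} (hCb : 1 ≤ Cb) (hCc : 1 ≤ Cc)
    (hB : ∀ (H : ℂ → ℂ) (M : ℝ), Differentiable ℂ H → 1 ≤ M →
      (∀ s : ℂ, ‖s - 2‖ ≤ 3 / 2 → ‖H s‖ ≤ M) → ∃ G : ℂ → ℂ, Differentiable ℂ G ∧
      (∀ s : ℂ, s ≠ 1 → riemannZeta s * H s = G s + H 1 / (s - 1)) ∧
      ∀ s : ℂ, ‖s - 2‖ = 3 / 2 → ‖G s‖ ≤ Cb * M)
    (hC : ∀ (N : ℕ) [NeZero N] (χ : DirichletCharacter ℂ N), χ ≠ 1 →
      ∀ s : ℂ, 1 / 2 ≤ s.re → ‖s‖ ≤ 4 → ‖LFunction χ s‖ ≤ Cc * N)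
    (he : 0 < e) (he2 : e ≤ 1 / 5) (hz : (riemannZeta ((1 - e : ℝ) : ℂ)).re ≤ 0)
    {N : ℕ} [NeZero N] {χ : DirichletCharacter ℂ N} (hχ : χ ≠ 1) (hχ2 : χ ^ 2 = 1)
    (hne : ∀ σ : ℝ, 1 - e ≤ σ → σ < 1 → LFunction χ σ ≠ 0) :
    e * (Cb * (Cc * N)) ^ (-(5 * e)) ≤ 100 * ‖LFunction χ 1‖ := by
  have hN : (1 : ℝ) ≤ N := by exact_mod_cast NeZero.one_le
  have hM : 1 ≤ Cc * N := by nlinarith
  obtain ⟨G, hG1, hG2, hG3⟩ := hB (LFunction χ) (Cc * N) (differentiable_LFunction hχ) hM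
    (fun s hs => hC N χ hχ s (norm_le_four hs).1 (norm_le_four hs).2)
  obtain ⟨a, ha1, ha2, ha3⟩ := double_coeff N χ hχ2
  have h1im := (hR N χ hχ hχ2 1 (by norm_num)).1
  have hL1 : LFunction χ 1 = (((LFunction χ 1).re : ℝ) : ℂ) := by
    apply Complex.ext
    · simp
    · rw [Complex.ofReal_im]
      simpa using h1im
  have hpos := pos_of_nonvanishing hR hχ hχ2 (β := 1 - e) (by linarith) (by linarith) hne
  have him := (hR N χ hχ hχ2 (1 - e) (by linarith)).1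
  have hne1 : ((1 - e : ℝ) : ℂ) ≠ 1 := by
    intro h
    have : 1 - e = 1 := by exact_mod_cast h
    linarith
  have hmain := hE a G (LFunction χ 1).re (Cb * (Cc * N)) (1 - e) ha1 (by rw [ha2]; simp)
    (fun s hs => (ha3 s hs).1) hG1 ?_ (by nlinarith) hG3 (by linarith) (by linarith) ?_
  · have h2 : 1 - (1 - e) = e := by ring
    rw [h2] at hmain
    refine hmain.trans ?_
    have := Complex.re_le_norm (LFunction χ 1)
    linarith
  · intro s hs
    have hs1 : s ≠ 1 := by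
      intro h
      rw [h] at hs
      simp at hs
    rw [(ha3 s hs).2, hG2 s hs1, ← hL1]
  · have h2 := hG2 _ hne1
    have h3 : (riemannZeta ((1 - e : ℝ) : ℂ) * LFunction χ ((1 - e : ℝ) : ℂ)).re ≤ 0 := by
      rw [Complex.mul_re, him, mul_zero, sub_zero]
      exact mul_nonpos_of_nonpos_of_nonneg hz hpos.le
    rw [h2, hL1, Complex.add_re] at h3
    have h4 : ((((LFunction χ 1).re : ℝ) : ℂ) / (((1 - e : ℝ) : ℂ) - 1)).re =
        - ((LFunction χ 1).re / (1 - (1 - e))) := by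
      have : (((LFunction χ 1).re : ℝ) : ℂ) / (((1 - e : ℝ) : ℂ) - 1) =
          (((LFunction χ 1).re / ((1 - e) - 1) : ℝ) : ℂ) := by push_cast; ring
      rw [this, Complex.ofReal_re, show (1 - e) - 1 = -(1 - (1 - e)) by ring, div_neg]
    rw [h4] at h3
    linarith

end Pool.Agent.Helper6.SW
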