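import Mathlib
import Pool.Agent.Helper6.SW.SiegelA

/-! Siegel's theorem: the case of an exceptional zero, and the theorem. -/

namespace Pool.Agent.Helper6.SW

open Finset DirichletCharacter

/-- product lower bound from one exceptional zero -/
lemma siegel_B (hE : StEstermann) (hQ : StQuad) (hR : StReal) {Cb Cc β : ℝ} (hCb : 1 ≤ Cb)
    (hCc : 1 ≤ Cc)
    (hB : ∀ (H : ℂ → ℂ) (M : ℝ), Differentiable ℂ H → 1 ≤ M →
      (∀ s : ℂ, ‖s - 2‖ ≤ 3 / 2 → ‖H s‖ ≤ M) → ∃ G : ℂ → ℂ, Differentiable ℂ G ∧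
      (∀ s : ℂ, s ≠ 1 → riemannZeta s * H s = G s + H 1 / (s - 1)) ∧
      ∀ s : ℂ, ‖s - 2‖ = 3 / 2 → ‖G s‖ ≤ Cb * M)
    (hC : ∀ (N : ℕ) [NeZero N] (χ : DirichletCharacter ℂ N), χ ≠ 1 →
      ∀ s : ℂ, 1 / 2 ≤ s.re → ‖s‖ ≤ 4 → ‖LFunction χ s‖ ≤ Cc * N)
    (hβ : 4 / 5 ≤ β) (hβ1 : β < 1) {N : ℕ} [NeZero N] {ψ₁ ψ₂ : DirichletCharacter ℂ N}
    (h1 : ψ₁ ≠ 1) (h1' : ψ₁ ^ 2 = 1) (h2 : ψ₂ ≠ 1) (h2' : ψ₂ ^ 2 = 1) (h12 : ψ₁ ≠ ψ₂)
    (hz : LFunction ψ₁ β = 0) :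
    (1 - β) * (Cb * (Cc * N) ^ 3) ^ (-(5 * (1 - β))) ≤
      100 * (‖LFunction ψ₁ 1‖ * ‖LFunction ψ₂ 1‖ * ‖LFunction (ψ₁ * ψ₂) 1‖) := by
  have hN : (1 : ℝ) ≤ N := by exact_mod_cast NeZero.one_le
  have hM : 1 ≤ Cc * N := by nlinarith
  have hM3 : 1 ≤ (Cc * N) ^ 3 := one_le_pow₀ hM
  have h3 : ψ₁ * ψ₂ ≠ 1 := by
    intro h
    apply h12
    have h4 : ψ₁ = ψ₂⁻¹ := eq_inv_of_mul_eq_one_left h
    have h5 : ψ₂ = ψ₂⁻¹ := by
      rw [sq] at h2'
      exact eq_inv_of_mul_eq_one_left h2'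
    rw [h4]
    exact h5.symm
  have h3' : (ψ₁ * ψ₂) ^ 2 = 1 := by rw [mul_pow, h1', h2', one_mul]
  obtain ⟨H, hH⟩ : ∃ H : ℂ → ℂ, H = fun s => LFunction ψ₁ s * LFunction ψ₂ s *
    LFunction (ψ₁ * ψ₂) s := ⟨_, rfl⟩
  have hHd : Differentiable ℂ H := by
    rw [hH]
    exact ((differentiable_LFunction h1).mul (differentiable_LFunction h2)).mul
      (differentiable_LFunction h3)
  obtain ⟨G, hG1, hG2, hG3⟩ := hB H ((Cc * N) ^ 3) hHd hM3 (by
    intro s hs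
    obtain ⟨ha, hb⟩ := norm_le_four hs
    rw [hH]
    change ‖LFunction ψ₁ s * LFunction ψ₂ s * LFunction (ψ₁ * ψ₂) s‖ ≤ _
    rw [norm_mul, norm_mul, pow_succ, sq]
    gcongr
    · exact hC N ψ₁ h1 s ha hb
    · exact hC N ψ₂ h2 s ha hb
    · exact hC N _ h3 s ha hb)
  obtain ⟨a, ha1, ha2, ha3⟩ := hQ N ψ₁ ψ₂ h1' h2'
  have hreal : ∀ ψ : DirichletCharacter ℂ N, ψ ≠ 1 → ψ ^ 2 = 1 →
      LFunction ψ 1 = (((LFunction ψ 1).re : ℝ) : ℂ) := by
    intro ψ hψ hψ2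
    have him := (hR N ψ hψ hψ2 1 (by norm_num)).1
    apply Complex.ext
    · simp
    · rw [Complex.ofReal_im]
      simpa using him
  obtain ⟨lam, hlam⟩ : ∃ lam : ℝ, lam = (LFunction ψ₁ 1).re * (LFunction ψ₂ 1).re *
    (LFunction (ψ₁ * ψ₂) 1).re := ⟨_, rfl⟩
  have hH1 : H 1 = (lam : ℂ) := by
    rw [hH, hlam]
    push_cast
    rw [← hreal ψ₁ h1 h1', ← hreal ψ₂ h2 h2', ← hreal _ h3 h3']
  have hne1 : (β : ℂ) ≠ 1 := by
    intro h
    have : β = 1 := by exact_mod_cast h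
    linarith
  have hmain := hE a G lam (Cb * (Cc * N) ^ 3) β ha1 (by rw [ha2]; simp)
    (fun s hs => (ha3 s hs).1) hG1 ?_ (by nlinarith) hG3 hβ hβ1 ?_
  · refine hmain.trans ?_
    rw [hlam]
    have e : ∀ z : ℂ, |z.re| ≤ ‖z‖ := Complex.abs_re_le_norm
    calc 100 * ((LFunction ψ₁ 1).re * (LFunction ψ₂ 1).re * (LFunction (ψ₁ * ψ₂) 1).re)
        ≤ 100 * |(LFunction ψ₁ 1).re * (LFunction ψ₂ 1).re * (LFunction (ψ₁ * ψ₂) 1).re| := by
          have := le_abs_self ((LFunction ψ₁ 1).re * (LFunction ψ₂ 1).re *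
            (LFunction (ψ₁ * ψ₂) 1).re)
          linarith
      _ ≤ _ := by
          rw [abs_mul, abs_mul]
          gcongr
          · exact e _
          · exact e _
          · exact e _
  · intro s hs
    have hs1 : s ≠ 1 := by
      intro h
      rw [h] at hs
      simp at hs
    have h4 := hG2 s hs1
    rw [hH1] at h4
    rw [(ha3 s hs).2, ← h4, hH]
  · have h4 := hG2 _ hne1
    have h5 : H β = 0 := by rw [hH]; simp [hz]
    rw [h5, mul_zero, hH1] at h4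
    have h6 : G β = ((lam / (1 - β) : ℝ) : ℂ) := by
      have h7 : (lam : ℂ) / ((β : ℂ) - 1) = ((lam / (β - 1) : ℝ) : ℂ) := by push_cast; ring
      rw [h7] at h4
      have h8 : G β = - ((lam / (β - 1) : ℝ) : ℂ) := by
        linear_combination -h4
      rw [h8, ← Complex.ofReal_neg]
      congr 1
      rw [show β - 1 = -(1 - β) by ring, div_neg, neg_neg]
    rw [h6, Complex.ofReal_re]

/-- minimum of `|L(1, χ)|` over the nontrivial characters of one modulus -/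
lemma exists_min_L (N : ℕ) [NeZero N] : ∃ c : ℝ, 0 < c ∧ ∀ χ : DirichletCharacter ℂ N, χ ≠ 1 →
    c ≤ ‖LFunction χ 1‖ := by
  classical
  rcases (Finset.univ.filter (fun χ : DirichletCharacter ℂ N => χ ≠ 1)).eq_empty_or_nonempty with
    h | h
  · refine ⟨1, one_pos, fun χ hχ => ?_⟩
    have : χ ∈ Finset.univ.filter (fun χ : DirichletCharacter ℂ N => χ ≠ 1) := by
      simp [hχ]
    rw [h] at this
    simp at this
  · obtain ⟨χ₀, h1, h2⟩ := Finset.exists_min_image _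
      (fun χ : DirichletCharacter ℂ N => ‖LFunction χ 1‖) h
    refine ⟨‖LFunction χ₀ 1‖, ?_, fun χ hχ => h2 χ (by simp [hχ])⟩
    rw [norm_pos_iff]
    exact LFunction_ne_zero_of_one_le_re χ₀ (Or.inl (by simpa using h1)) (by simp)

/-- changing the level changes `L(1, χ)` at most by a factor depending on the new primes -/
lemma norm_changeLevel_le {N₁ N₂ : ℕ} [NeZero N₁] [NeZero N₂] [NeZero (N₁ * N₂)]
    {χ : DirichletCharacter ℂ N₂} (hχ : χ ≠ 1) :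
    ‖LFunction (changeLevel (Dvd.intro_left N₁ rfl : N₂ ∣ N₁ * N₂) χ) 1‖ ≤
      ‖LFunction χ 1‖ * 2 ^ N₁ := by
  rw [LFunction_changeLevel _ χ (Or.inl hχ), norm_mul]
  apply mul_le_mul_of_nonneg_left _ (norm_nonneg _)
  rw [norm_prod]
  have hN1 : N₁ ≠ 0 := NeZero.ne N₁
  have hN2 : N₂ ≠ 0 := NeZero.ne N₂
  have hterm : ∀ p ∈ (N₁ * N₂).primeFactors,
      ‖(1 : ℂ) - χ p * (p : ℂ) ^ (-(1 : ℂ))‖ ≤ if p ∈ N₁.primeFactors then 2 else 1 := by
    intro p hp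
    have hpp := Nat.prime_of_mem_primeFactors hp
    split_ifs with h
    · calc ‖(1 : ℂ) - χ p * (p : ℂ) ^ (-(1 : ℂ))‖ ≤ ‖(1 : ℂ)‖ + ‖χ p * (p : ℂ) ^ (-(1 : ℂ))‖ :=
            norm_sub_le _ _
        _ ≤ 1 + 1 := by
            rw [norm_one, norm_mul]
            have h1 : ‖χ p‖ ≤ 1 := norm_le_one χ _
            have h2 : ‖(p : ℂ) ^ (-(1 : ℂ))‖ ≤ 1 := by
              rw [Complex.cpow_neg_one, norm_inv, Complex.norm_natCast]
              exact inv_le_one_of_one_le₀ (by exact_mod_cast hpp.one_lt.le)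
            nlinarith [norm_nonneg (χ p), norm_nonneg ((p : ℂ) ^ (-(1 : ℂ)))]
        _ = 2 := by norm_num
    · have h1 : p ∣ N₂ := by
        have h2 := Nat.dvd_of_mem_primeFactors hp
        rcases (Nat.Prime.dvd_mul hpp).mp h2 with h3 | h3
        · exact absurd (Nat.mem_primeFactors.mpr ⟨hpp, h3, hN1⟩) h
        · exact h3
      have h2 : χ (p : ZMod N₂) = 0 := by
        apply MulChar.map_nonunit
        rw [ZMod.isUnit_iff_coprime]
        intro h3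
        have := Nat.Coprime.eq_one_of_dvd h3 h1
        exact hpp.one_lt.ne' this
      rw [h2, zero_mul, sub_zero, norm_one]
  calc ∏ p ∈ (N₁ * N₂).primeFactors, ‖(1 : ℂ) - χ p * (p : ℂ) ^ (-(1 : ℂ))‖
      ≤ ∏ p ∈ (N₁ * N₂).primeFactors, (if p ∈ N₁.primeFactors then (2 : ℝ) else 1) :=
        Finset.prod_le_prod (fun _ _ => norm_nonneg _) hterm
    _ = ∏ p ∈ (N₁ * N₂).primeFactors.filter (fun p => p ∈ N₁.primeFactors), (2 : ℝ) := by
        rw [Finset.prod_filter]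
    _ = 2 ^ ((N₁ * N₂).primeFactors.filter (fun p => p ∈ N₁.primeFactors)).card := by
        rw [Finset.prod_const]
    _ ≤ 2 ^ N₁ := by
        apply pow_le_pow_right₀ (by norm_num)
        calc ((N₁ * N₂).primeFactors.filter (fun p => p ∈ N₁.primeFactors)).card
            ≤ N₁.primeFactors.card := Finset.card_le_card (fun p hp => (mem_filter.mp hp).2)
          _ ≤ (Icc 1 N₁).card := Finset.card_le_card (fun p hp => by
              rw [mem_Icc]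
              exact ⟨(Nat.prime_of_mem_primeFactors hp).one_lt.le,
                Nat.le_of_dvd (Nat.pos_of_ne_zero hN1) (Nat.dvd_of_mem_primeFactors hp)⟩)
          _ = N₁ := by simp

/-- SW-8e -/
theorem stSiegel_of (hU : StUpper) (hC : StCoarse) (hE : StEstermann) (hQ : StQuad) (hR : StReal)
    (hB : StBall) : StSiegel := by
  obtain ⟨Cu, hCu0, hCu⟩ := hU
  obtain ⟨Cb, hCb1, hCb⟩ := hB
  obtain ⟨Cc, hCc1, hCc⟩ : ∃ Cc : ℝ, 1 ≤ Cc ∧ ∀ (N : ℕ) [NeZero N] (χ : DirichletCharacter ℂ N),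
      χ ≠ 1 → ∀ s : ℂ, 1 / 2 ≤ s.re → ‖s‖ ≤ 4 → ‖LFunction χ s‖ ≤ Cc * N := by
    obtain ⟨C, hC0, h⟩ := hC
    refine ⟨max 1 C, le_max_left _ _, ?_⟩
    intro N _ χ hχ s h1 h2
    refine (h N χ hχ s h1 h2).trans ?_
    exact mul_le_mul_of_nonneg_right (le_max_right _ _) (Nat.cast_nonneg _)
  obtain ⟨e₀, he0, he05, hzeta⟩ := exists_zeta_neg
  intro ε hε
  obtain ⟨e, he⟩ : ∃ e, e = min e₀ (min (1 / 30) (ε / 30)) := ⟨_, rfl⟩
  have hepos : 0 < e := by rw [he]; exact lt_min he0 (lt_min (by norm_num) (by positivity))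
  have hee0 : e ≤ e₀ := by rw [he]; exact min_le_left _ _
  have he30 : e ≤ 1 / 30 := by rw [he]; exact (min_le_right _ _).trans (min_le_left _ _)
  have heε : 30 * e ≤ ε := by
    have : e ≤ ε / 30 := by rw [he]; exact (min_le_right _ _).trans (min_le_right _ _)
    linarith
  have he5 : e ≤ 1 / 5 := by linarith
  by_cases hcase : ∀ (N : ℕ) [NeZero N] (χ : DirichletCharacter ℂ N), χ.IsPrimitive → χ ≠ 1 →
      χ ^ 2 = 1 → ∀ σ : ℝ, 1 - e ≤ σ → σ < 1 → LFunction χ σ ≠ 0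
  · -- no exceptional zero
    refine ⟨e / (100 * (Cb * Cc)), by positivity, ?_⟩
    intro N _ χ hp hχ hχ2
    have hN : (1 : ℝ) ≤ N := by exact_mod_cast NeZero.one_le
    have h := siegel_A hE hR hCb1 hCc1 hCb hCc hepos he5
      (hzeta (1 - e) (by linarith) (by linarith)) hχ hχ2 (hcase N χ hp hχ hχ2)
    have hCC : 1 ≤ Cb * Cc := by nlinarith
    have h2 : (Cb * Cc)⁻¹ * (N : ℝ) ^ (-ε) ≤ (Cb * (Cc * N)) ^ (-(5 * e)) := by
      rw [← mul_assoc, Real.mul_rpow (by positivity) (by positivity)]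
      apply mul_le_mul _ _ (by positivity) (by positivity)
      · rw [← Real.rpow_neg_one]
        exact Real.rpow_le_rpow_of_exponent_le hCC (by linarith)
      · exact Real.rpow_le_rpow_of_exponent_le hN (by linarith)
    calc e / (100 * (Cb * Cc)) * (N : ℝ) ^ (-ε)
        = e / 100 * ((Cb * Cc)⁻¹ * (N : ℝ) ^ (-ε)) := by field_simp
      _ ≤ e / 100 * (Cb * (Cc * N)) ^ (-(5 * e)) :=
          mul_le_mul_of_nonneg_left h2 (by positivity)
      _ ≤ ‖LFunction χ 1‖ := by linarith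
  · -- an exceptional zero
    push Not at hcase
    obtain ⟨N₁, hN₁, χ₁, hp₁, hχ₁, hχ₁2, β, hβ1, hβ2, hz⟩ := hcase
    obtain ⟨c₁, hc₁, hmin⟩ := exists_min_L N₁
    have hN1r : (1 : ℝ) ≤ N₁ := by exact_mod_cast NeZero.one_le
    obtain ⟨Cl, hCl⟩ : ∃ Cl, Cl = Real.log (3 * N₁) + 4 / ε := ⟨_, rfl⟩
    have hl3 : 0 ≤ Real.log (3 * N₁) := Real.log_nonneg (by nlinarith)
    have hCl0 : 0 < Cl := by rw [hCl]; positivity
    obtain ⟨c₂, hc₂⟩ : ∃ c₂, c₂ = (1 - β) / (100 * (Cb * Cc ^ 3) * N₁ * (Cu * Cl) ^ 2 * 2 ^ N₁) :=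
      ⟨_, rfl⟩
    have hβ0 : 0 < 1 - β := by linarith
    have hc20 : 0 < c₂ := by rw [hc₂]; positivity
    refine ⟨min c₁ c₂, lt_min hc₁ hc20, ?_⟩
    intro N₂ _ χ₂ hp₂ hχ₂ hχ₂2
    have hN2r : (1 : ℝ) ≤ N₂ := by exact_mod_cast NeZero.one_le
    rcases eq_or_ne N₂ N₁ with hN | hN
    · subst hN
      have h1 : (N₂ : ℝ) ^ (-ε) ≤ 1 := Real.rpow_le_one_of_one_le_of_nonpos hN2r (by linarith)
      calc min c₁ c₂ * (N₂ : ℝ) ^ (-ε) ≤ c₁ * 1 :=
            mul_le_mul (min_le_left _ _) h1 (by positivity) hc₁.le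
        _ = c₁ := mul_one _
        _ ≤ _ := hmin χ₂ hχ₂
    · haveI : NeZero (N₁ * N₂) := ⟨mul_ne_zero (NeZero.ne N₁) (NeZero.ne N₂)⟩
      obtain ⟨ψ₁, hψ₁⟩ : ∃ ψ₁, ψ₁ = changeLevel (Dvd.intro N₂ rfl : N₁ ∣ N₁ * N₂) χ₁ := ⟨_, rfl⟩
      obtain ⟨ψ₂, hψ₂⟩ : ∃ ψ₂, ψ₂ = changeLevel (Dvd.intro_left N₁ rfl : N₂ ∣ N₁ * N₂) χ₂ :=
        ⟨_, rfl⟩
      have h1 : ψ₁ ≠ 1 := by
        rw [hψ₁]
        exact fun h => hχ₁ ((changeLevel_eq_one_iff _).mp h)
      have h2 : ψ₂ ≠ 1 := by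
        rw [hψ₂]
        exact fun h => hχ₂ ((changeLevel_eq_one_iff _).mp h)
      have h1' : ψ₁ ^ 2 = 1 := by rw [hψ₁, ← map_pow, hχ₁2, map_one]
      have h2' : ψ₂ ^ 2 = 1 := by rw [hψ₂, ← map_pow, hχ₂2, map_one]
      have h12 : ψ₁ ≠ ψ₂ := by
        intro h
        have e1 : ψ₁.conductor = N₁ := by
          rw [hψ₁, conductor_changeLevel]
          exact hp₁
        have e2 : ψ₂.conductor = N₂ := by
          rw [hψ₂, conductor_changeLevel]
          exact hp₂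
        rw [h, e2] at e1
        exact hN e1
      have hz' : LFunction ψ₁ β = 0 := by
        rw [hψ₁, LFunction_changeLevel _ χ₁ (Or.inl hχ₁), hz, zero_mul]
      have hmain := siegel_B hE hQ hR hCb1 hCc1 hCb hCc (β := β) (by linarith) hβ2 h1 h1' h2 h2'
        h12 hz'
      -- upper bounds
      have hell : ell (N₁ * N₂) (1 : ℂ).im ≤ Cl * (N₂ : ℝ) ^ (ε / 4) := by
        unfold ell
        rw [Complex.one_im, abs_zero, zero_add]
        have e1 : ((N₁ * N₂ : ℕ) : ℝ) * 3 = (3 * N₁) * N₂ := by push_cast; ring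
        rw [e1, Real.log_mul (by positivity) (by positivity)]
        have e2 : Real.log N₂ ≤ (N₂ : ℝ) ^ (ε / 4) / (ε / 4) :=
          Real.log_le_rpow_div (by positivity) (by positivity)
        have e3 : 1 ≤ (N₂ : ℝ) ^ (ε / 4) := Real.one_le_rpow hN2r (by positivity)
        calc Real.log (3 * N₁) + Real.log N₂
            ≤ Real.log (3 * N₁) * (N₂ : ℝ) ^ (ε / 4) + (N₂ : ℝ) ^ (ε / 4) / (ε / 4) := by
              have := mul_le_mul_of_nonneg_left e3 hl3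
              linarith
          _ = Cl * (N₂ : ℝ) ^ (ε / 4) := by
              rw [hCl]
              field_simp
      have hellpos : 0 < ell (N₁ * N₂) (1 : ℂ).im := by
        unfold ell
        rw [Complex.one_im, abs_zero, zero_add]
        apply Real.log_pos
        have : (1 : ℝ) ≤ ((N₁ * N₂ : ℕ) : ℝ) := by exact_mod_cast NeZero.one_le
        linarith
      have hup : ∀ ψ : DirichletCharacter ℂ (N₁ * N₂), ψ ≠ 1 →
          ‖LFunction ψ 1‖ ≤ Cu * (Cl * (N₂ : ℝ) ^ (ε / 4)) := by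
        intro ψ hψ
        refine (hCu (N₁ * N₂) ψ hψ 1 ?_ ?_).trans (mul_le_mul_of_nonneg_left hell hCu0.le)
        · rw [Complex.one_re]
          have : 0 < 1 / ell (N₁ * N₂) (1 : ℂ).im := by positivity
          linarith
        · rw [Complex.one_re]
          norm_num
      have h3 : ψ₁ * ψ₂ ≠ 1 := by
        intro h
        apply h12
        have h4 : ψ₁ = ψ₂⁻¹ := eq_inv_of_mul_eq_one_left h
        have h5 : ψ₂ = ψ₂⁻¹ := by
          rw [sq] at h2'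
          exact eq_inv_of_mul_eq_one_left h2'
        rw [h4]
        exact h5.symm
      have hup2 : ‖LFunction ψ₂ 1‖ ≤ ‖LFunction χ₂ 1‖ * 2 ^ N₁ := by
        rw [hψ₂]
        exact norm_changeLevel_le hχ₂
      have hD : 0 < (N₂ : ℝ) ^ (ε / 4) := by positivity
      have hprod : ‖LFunction ψ₁ 1‖ * ‖LFunction ψ₂ 1‖ * ‖LFunction (ψ₁ * ψ₂) 1‖ ≤
          (Cu * Cl) ^ 2 * (N₂ : ℝ) ^ (ε / 2) * 2 ^ N₁ * ‖LFunction χ₂ 1‖ := by
        calc ‖LFunction ψ₁ 1‖ * ‖LFunction ψ₂ 1‖ * ‖LFunction (ψ₁ * ψ₂) 1‖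
            ≤ (Cu * (Cl * (N₂ : ℝ) ^ (ε / 4))) * (‖LFunction χ₂ 1‖ * 2 ^ N₁) *
              (Cu * (Cl * (N₂ : ℝ) ^ (ε / 4))) := by
              gcongr
              · exact hup ψ₁ h1
              · exact hup _ h3
          _ = (Cu * Cl) ^ 2 * ((N₂ : ℝ) ^ (ε / 4) * (N₂ : ℝ) ^ (ε / 4)) * 2 ^ N₁ *
              ‖LFunction χ₂ 1‖ := by ring
          _ = _ := by
              rw [← Real.rpow_add (by linarith)]
              congr 4
              ring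
      have hlow : (Cb * Cc ^ 3)⁻¹ * (N₁ : ℝ)⁻¹ * (N₂ : ℝ) ^ (-(ε / 2)) ≤
          (Cb * (Cc * ((N₁ * N₂ : ℕ) : ℝ)) ^ 3) ^ (-(5 * (1 - β))) := by
        have e1 : Cb * (Cc * ((N₁ * N₂ : ℕ) : ℝ)) ^ 3 =
            (Cb * Cc ^ 3) * ((N₁ : ℝ) ^ (3 : ℝ) * (N₂ : ℝ) ^ (3 : ℝ)) := by
          rw [show (3 : ℝ) = ((3 : ℕ) : ℝ) by norm_num, Real.rpow_natCast, Real.rpow_natCast]
          push_cast
          ring
        have hCC : 1 ≤ Cb * Cc ^ 3 := by
          have := one_le_pow₀ hCc1 (n := 3)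
          nlinarith
        rw [e1]
        have hCC0 : 0 < Cb * Cc ^ 3 := by linarith
        generalize Cb * Cc ^ 3 = K at hCC hCC0 ⊢
        rw [Real.mul_rpow hCC0.le (by positivity),
          Real.mul_rpow (by positivity) (by positivity), ← Real.rpow_mul (by positivity),
          ← Real.rpow_mul (by positivity), ← mul_assoc]
        apply mul_le_mul _ _ (by positivity) (by positivity)
        · apply mul_le_mul _ _ (by positivity) (by positivity)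
          · rw [← Real.rpow_neg_one]
            exact Real.rpow_le_rpow_of_exponent_le hCC (by linarith)
          · rw [← Real.rpow_neg_one]
            exact Real.rpow_le_rpow_of_exponent_le hN1r (by linarith)
        · exact Real.rpow_le_rpow_of_exponent_le hN2r (by linarith)
      have hfin : (1 - β) * ((Cb * Cc ^ 3)⁻¹ * (N₁ : ℝ)⁻¹ * (N₂ : ℝ) ^ (-(ε / 2))) ≤
          100 * ((Cu * Cl) ^ 2 * (N₂ : ℝ) ^ (ε / 2) * 2 ^ N₁ * ‖LFunction χ₂ 1‖) :=
        (mul_le_mul_of_nonneg_left hlow hβ0.le).trans (hmain.trans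
          (mul_le_mul_of_nonneg_left hprod (by norm_num)))
      have e4 : (N₂ : ℝ) ^ (-ε) = (N₂ : ℝ) ^ (-(ε / 2)) / (N₂ : ℝ) ^ (ε / 2) := by
        rw [← Real.rpow_sub (by linarith)]
        congr 1
        ring
      have hE2 : 0 < (N₂ : ℝ) ^ (ε / 2) := by positivity
      calc min c₁ c₂ * (N₂ : ℝ) ^ (-ε) ≤ c₂ * (N₂ : ℝ) ^ (-ε) :=
            mul_le_mul_of_nonneg_right (min_le_right _ _) (by positivity)
        _ = ((1 - β) * ((Cb * Cc ^ 3)⁻¹ * (N₁ : ℝ)⁻¹ * (N₂ : ℝ) ^ (-(ε / 2)))) /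
            (100 * ((Cu * Cl) ^ 2 * (N₂ : ℝ) ^ (ε / 2) * 2 ^ N₁)) := by
            rw [hc₂, e4]
            field_simp
        _ ≤ ‖LFunction χ₂ 1‖ := by
            rw [div_le_iff₀ (by positivity)]
            linarith

end Pool.Agent.Helper6.SW
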